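import Pool.Agent.N550.SH.Fin
import Pool.Agent.N692.SH6

/-!
# Project SH: embedding of the ball
-/

set_option autoImplicit false

open Set Filter Topology Metric Function MeasureTheory
open scoped Manifold ContDiff ENNReal NNReal

noncomputable section

namespace Pool.Agent.N550.SH

open Pool.Agent.Y522

/-- the inverse of an injective local diffeomorphism -/
theorem inv_ld {m : ℕ} {M : Type} [TopologicalSpace M]
    [ChartedSpace (EuclideanHalfSpace (m + 1)) M] [IsManifold (𝓡∂ (m + 1)) ∞ M]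
    (j : E (m + 1) → M) (hj : Injective j)
    (hld : ∀ x, IsLocalDiffeomorphAt (𝓡 (m + 1)) (𝓡∂ (m + 1)) ∞ j x) :
    ∃ J : M → E (m + 1), (∀ y, J (j y) = y) ∧ ∀ y,
      ContMDiffAt (𝓡∂ (m + 1)) (𝓡 (m + 1)) ∞ J (j y) ∧
      Bijective (mfderiv (𝓡∂ (m + 1)) (𝓡 (m + 1)) J (j y)) := by
  have hJ : ∀ y, invFun j (j y) = y := leftInverse_invFun hj
  refine ⟨invFun j, hJ, fun y => ?_⟩
  have hc : ContMDiffAt (𝓡∂ (m + 1)) (𝓡 (m + 1)) ∞ (invFun j) (j y) := by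
    obtain ⟨Φ, hy, hΦ⟩ := hld y
    have ht : j y ∈ Φ.target := by
      rw [hΦ hy]; exact Φ.map_source hy
    have h1 : ContMDiffAt (𝓡∂ (m + 1)) (𝓡 (m + 1)) ∞ Φ.symm (j y) :=
      (Φ.contMDiffOn_invFun).contMDiffAt (Φ.open_target.mem_nhds ht)
    refine h1.congr_of_eventuallyEq ?_
    filter_upwards [Φ.open_target.mem_nhds ht] with z hz
    have h2 : j (Φ.symm z) = z := (hΦ (Φ.map_target hz)).trans (Φ.right_inv hz)
    conv_lhs => rw [← h2]
    exact hJ _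
  refine ⟨hc, ?_⟩
  have h3 : MDifferentiableAt (𝓡∂ (m + 1)) (𝓡 (m + 1)) (invFun j) (j y) :=
    hc.mdifferentiableAt (by simp)
  have h4 : MDifferentiableAt (𝓡 (m + 1)) (𝓡∂ (m + 1)) j y :=
    (hld y).contMDiffAt.mdifferentiableAt (by simp)
  have h5 := mfderiv_comp y h3 h4
  have h6 : invFun j ∘ j = id := funext hJ
  rw [h6, mfderiv_id] at h5
  have h7 : Bijective (mfderiv (𝓡 (m + 1)) (𝓡∂ (m + 1)) j y) := by
    have h8 := (hld y).mfderivToContinuousLinearEquiv_coe (by simp)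
    rw [← h8]
    exact ((hld y).mfderivToContinuousLinearEquiv (by simp)).bijective
  have h9 : Bijective ((mfderiv (𝓡∂ (m + 1)) (𝓡 (m + 1)) (invFun j) (j y)) ∘
      (mfderiv (𝓡 (m + 1)) (𝓡∂ (m + 1)) j y)) := by
    have h10 : ⇑(mfderiv (𝓡∂ (m + 1)) (𝓡 (m + 1)) (invFun j) (j y)) ∘
      ⇑(mfderiv (𝓡 (m + 1)) (𝓡∂ (m + 1)) j y) = id := by
      funext v
      exact (DFunLike.congr_fun h5 v).symm
    rw [h10]; exact bijective_id
  exact (Bijective.of_comp_iff _ h7).1 h9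

/-- **A smooth ball embeds in the Euclidean space.** -/
theorem ball_embeds (m : ℕ) (M : Type) [TopologicalSpace M]
    [ChartedSpace (EuclideanHalfSpace (m + 1)) M] [IsManifold (𝓡∂ (m + 1)) ∞ M]
    (h : M ≃ₜ closedBall (0 : E (m + 1)) 1)
    (hB : Measure.hausdorffMeasure 1 ((fun x => (h x : E (m + 1))) ''
      {x | x ∈ (𝓡∂ (m + 1)).interior M ∧
        ¬ ∀ᶠ y in 𝓝 x, ContMDiffAt (𝓡∂ (m + 1)) (𝓡 (m + 1)) ∞ (fun x => (h x : E (m + 1))) y})
      = 0) :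
    (∃ j : E (m + 1) → M, Injective j ∧ range j = (𝓡∂ (m + 1)).interior M ∧
      ∀ x, IsLocalDiffeomorphAt (𝓡 (m + 1)) (𝓡∂ (m + 1)) ∞ j x) ∧
    ∃ k : M → E (m + 1), Injective k ∧ ContMDiff (𝓡∂ (m + 1)) (𝓡 (m + 1)) ∞ k ∧
      ∀ x, Bijective (mfderiv (𝓡∂ (m + 1)) (𝓡 (m + 1)) k x) := by
  have : T2Space M := h.symm.t2Space
  have : CompactSpace (closedBall (0 : E (m + 1)) 1) :=
    isCompact_iff_compactSpace.1 (isCompact_closedBall 0 1)
  have : CompactSpace M := h.symm.compactSpace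
  obtain ⟨j, hj, hr, hld⟩ := ball_version m M h hB
  refine ⟨⟨j, hj, hr, hld⟩, ?_⟩
  obtain ⟨ψ, hψ, hψs, hψb, hψi⟩ := Pool.Agent.N692.SH.push_in m M
  obtain ⟨J, hJ1, hJ2⟩ := inv_ld j hj hld
  have hx : ∀ x, ∃ y, j y = ψ x := fun x => by
    have := hψi x
    rwa [← hr] at this
  refine ⟨J ∘ ψ, ?_, ?_, ?_⟩
  · intro a b hab
    obtain ⟨y, hy⟩ := hx a
    obtain ⟨z, hz⟩ := hx b
    have h1 : J (ψ a) = J (ψ b) := hab
    rw [← hy, ← hz, hJ1, hJ1] at h1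
    exact hψ (by rw [← hy, ← hz, h1])
  · intro x
    obtain ⟨y, hy⟩ := hx x
    have h1 := (hJ2 y).1
    rw [hy] at h1
    exact h1.comp x (hψs x)
  · intro x
    obtain ⟨y, hy⟩ := hx x
    obtain ⟨h1, h2⟩ := hJ2 y
    rw [hy] at h1 h2
    rw [mfderiv_comp x (h1.mdifferentiableAt (by simp)) ((hψs x).mdifferentiableAt (by simp))]
    exact h2.comp (hψb x)

/-- **A smooth ball is a compact domain of the Euclidean space with standard interior.** -/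
theorem ball_domain (m : ℕ) (M : Type) [TopologicalSpace M]
    [ChartedSpace (EuclideanHalfSpace (m + 1)) M] [IsManifold (𝓡∂ (m + 1)) ∞ M]
    (h : M ≃ₜ closedBall (0 : E (m + 1)) 1)
    (hB : Measure.hausdorffMeasure 1 ((fun x => (h x : E (m + 1))) ''
      {x | x ∈ (𝓡∂ (m + 1)).interior M ∧
        ¬ ∀ᶠ y in 𝓝 x, ContMDiffAt (𝓡∂ (m + 1)) (𝓡 (m + 1)) ∞ (fun x => (h x : E (m + 1))) y})
      = 0) :
    ∃ k : M → E (m + 1), (Injective k ∧ ContMDiff (𝓡∂ (m + 1)) (𝓡 (m + 1)) ∞ k ∧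
      ∀ x, Bijective (mfderiv (𝓡∂ (m + 1)) (𝓡 (m + 1)) k x)) ∧
      ∃ j : E (m + 1) → E (m + 1), Injective j ∧ range j = k '' ((𝓡∂ (m + 1)).interior M) ∧
        ∀ p, IsLocalDiffeomorphAt (𝓡 (m + 1)) (𝓡 (m + 1)) ∞ j p := by
  obtain ⟨⟨j, hj, hr, hld⟩, k, hk, hks, hkb⟩ := ball_embeds m M h hB
  refine ⟨k, ⟨hk, hks, hkb⟩, k ∘ j, hk.comp hj, by rw [range_comp, hr], fun p => ?_⟩
  have hsm : ∀ q, ContMDiffAt (𝓡 (m + 1)) (𝓡 (m + 1)) ∞ (k ∘ j) q := fun q =>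
    (hks (j q)).comp q (hld q).contMDiffAt
  have hcd : ∀ q, ContDiffAt ℝ ∞ (k ∘ j) q := fun q => contMDiffAt_iff_contDiffAt.1 (hsm q)
  have hd : HasFDerivAt (k ∘ j) (fderiv ℝ (k ∘ j) p) p :=
    ((hcd p).differentiableAt (by simp)).hasFDerivAt
  have h7 : Bijective (mfderiv (𝓡 (m + 1)) (𝓡∂ (m + 1)) j p) := by
    have h8 := (hld p).mfderivToContinuousLinearEquiv_coe (by simp)
    rw [← h8]
    exact ((hld p).mfderivToContinuousLinearEquiv (by simp)).bijective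
  have h1 : Bijective (mfderiv (𝓡 (m + 1)) (𝓡 (m + 1)) (k ∘ j) p) := by
    rw [mfderiv_comp p ((hks (j p)).mdifferentiableAt (by simp))
      ((hld p).contMDiffAt.mdifferentiableAt (by simp))]
    exact (hkb (j p)).comp h7
  rw [mfderiv_eq_fderiv] at h1
  set L : E (m + 1) →L[ℝ] E (m + 1) := fderiv ℝ (k ∘ j) p with hL
  have h2 : Bijective L := h1
  refine LD_of_contDiffAt (Eventually.of_forall hcd) (ContinuousLinearEquiv.ofBijective L
    (LinearMap.ker_eq_bot.2 h2.1) (LinearMap.range_eq_top.2 h2.2)) ?_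
  rw [ContinuousLinearEquiv.coe_ofBijective]
  exact hd

end Pool.Agent.N550.SH
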