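import Pool.Agent.N550.SH.Fin

/-!
# Project SH: homeomorphisms onto products of spheres
-/

set_option autoImplicit false

open Set Filter Topology Metric Function MeasureTheory
open scoped Manifold ContDiff ENNReal NNReal

noncomputable section

namespace Pool.Agent.N550.SH

open Pool.Agent.Y522

/-- the unit sphere of dimension `k` -/
abbrev Sp (k : ℕ) : Type := sphere (0 : EuclideanSpace ℝ (Fin (k + 1))) 1

/-- the stereographic projection from `a` -/
def ste (k : ℕ) (a : Sp k) : OpenPartialHomeomorph (Sp k) (E k) :=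
  have := Fact.mk (@finrank_euclideanSpace_fin ℝ _ (k + 1))
  stereographic' k a

theorem ste_source (k : ℕ) (a : Sp k) : (ste k a).source = {a}ᶜ := by
  have := Fact.mk (@finrank_euclideanSpace_fin ℝ _ (k + 1))
  exact stereographic'_source a

theorem ste_target (k : ℕ) (a : Sp k) : (ste k a).target = univ := by
  have := Fact.mk (@finrank_euclideanSpace_fin ℝ _ (k + 1))
  exact stereographic'_target a

theorem ste_smooth (k : ℕ) (a u : Sp k) (h : u ≠ a) : ContMDiffAt (𝓡 k) (𝓡 k) ∞ (ste k a) u := by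
  have := Fact.mk (@finrank_euclideanSpace_fin ℝ _ (k + 1))
  refine contMDiffAt_of_mem_maximalAtlas (IsManifold.subset_maximalAtlas ⟨a, rfl⟩) ?_
  rw [ste_source]
  exact h

/-- the stereographic projection as the restriction of a smooth map -/
theorem ste_amb (k : ℕ) (a : Sp k) : ∃ g : E (k + 1) → E k,
    (∀ u : Sp k, g u = ste k a u) ∧ ∀ u : Sp k, u ≠ a → ContDiffAt ℝ ∞ g u := by
  have := Fact.mk (@finrank_euclideanSpace_fin ℝ _ (k + 1))
  refine ⟨fun u => (OrthonormalBasis.fromOrthogonalSpanSingleton k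
    (ne_zero_of_mem_unit_sphere a)).repr (stereoToFun (a : E (k + 1)) u), fun u => rfl,
    fun u hu => ?_⟩
  have h1 : ContDiffAt ℝ ∞ (stereoToFun (a : E (k + 1))) u := by
    refine (contDiffOn_stereoToFun (v := (a : E (k + 1)))).contDiffAt ?_
    refine IsOpen.mem_nhds ?_ ?_
    · exact isOpen_ne_fun (by fun_prop) continuous_const
    · intro h2
      apply hu
      have h3 : inner ℝ (a : E (k + 1)) (u : E (k + 1)) = 1 := h2
      exact ((sphere_ext_iff a u).2 h3).symm
  exact (LinearIsometryEquiv.contDiff _).contDiffAt.comp _ h1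

/-- the inclusion of an open subset is a local diffeomorphism -/
theorem ld_opens {n : ℕ} {M : Type} [TopologicalSpace M] [ChartedSpace (E n) M]
    [IsManifold (𝓡 n) ∞ M] (U : TopologicalSpace.Opens M) (u : U) :
    LD n (Subtype.val : U → M) u := by
  set e : OpenPartialHomeomorph U M := U.openPartialHomeomorphSubtypeCoe ⟨u⟩ with he
  have hsrc : e.source = univ := TopologicalSpace.Opens.openPartialHomeomorphSubtypeCoe_source _ _
  have htgt : e.target = (U : Set M) :=
    TopologicalSpace.Opens.openPartialHomeomorphSubtypeCoe_target _ _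
  have hcoe : (e : U → M) = Subtype.val :=
    TopologicalSpace.Opens.openPartialHomeomorphSubtypeCoe_coe _ _
  refine ⟨{ toPartialEquiv := e.toPartialEquiv
            open_source := e.open_source
            open_target := e.open_target
            contMDiffOn_toFun := ?_
            contMDiffOn_invFun := ?_ }, ?_, ?_⟩
  · have h1 : ContMDiff (𝓡 n) (𝓡 n) ∞ (Subtype.val : U → M) := contMDiff_subtype_val
    rw [← hcoe] at h1
    exact h1.contMDiffOn
  · intro z hz
    have hz' : z ∈ e.target := hz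
    have hc : ContinuousAt e.symm z := e.symm.continuousAt hz'
    have h2 : ContMDiffAt (𝓡 n) (𝓡 n) ∞ e.symm z := by
      rw [contMDiffAt_iff_target]
      refine ⟨hc, ?_⟩
      have h3 : ContMDiffAt (𝓡 n) (𝓡 n) ∞ (chartAt (E n) z) z := (Pool.Agent.Y641.SH.LD_chart (n := n) z).contMDiffAt
      have hez : (e.symm z : M) = z := by
        have := e.right_inv hz'
        rwa [hcoe] at this
      refine h3.congr_of_eventuallyEq ?_
      filter_upwards [e.open_target.mem_nhds hz'] with w hw
      have hew : (e.symm w : M) = w := by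
        have := e.right_inv hw
        rwa [hcoe] at this
      show (chartAt (E n) (e.symm z : M)) (e.symm w : M) = _
      rw [hez, hew]
    exact h2.contMDiffWithinAt
  · show u ∈ e.source
    rw [hsrc]; trivial
  · intro y _
    show (y : M) = e y
    rw [hcoe]

section

variable {k l n : ℕ} {M : Type} [TopologicalSpace M] [ChartedSpace (E n) M]

/-- smoothness near a point of a map to a sphere -/
def NearS (p : M → Sp k) (x : M) : Prop := ∀ᶠ y in 𝓝 x, ContMDiffAt (𝓡 n) (𝓡 k) ∞ p y

/-- **The complement of the preimage of a wedge of spheres is a cell.** -/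
theorem cell [IsManifold (𝓡 n) ∞ M] (hn : k + l = n) (p : M → Sp k) (q : M → Sp l)
    (h : IsHomeomorph (fun x => (p x, q x)))
    (hB : Measure.hausdorffMeasure 1 ((fun x => (p x, q x)) ''
      {x | ¬ (NearS (n := n) p x ∧ NearS (n := n) q x)}) = 0) (a : Sp k) (b : Sp l) :
    ∃ j : E n → M, Injective j ∧ range j = {x | p x ≠ a ∧ q x ≠ b} ∧ ∀ y, LD n j y := by
  set hh : M ≃ₜ Sp k × Sp l := h.homeomorph with hhd
  have hhx : ∀ x, hh x = (p x, q x) := fun x => rfl
  have hfr : Module.finrank ℝ (E k × E l) = Module.finrank ℝ (E n) := by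
    rw [Module.finrank_prod]
    simp [hn]
  set J : (E k × E l) ≃L[ℝ] E n := ContinuousLinearEquiv.ofFinrankEq hfr with hJ
  set Φ : OpenPartialHomeomorph M (E n) := hh.toOpenPartialHomeomorph ≫ₕ
    ((ste k a).prod (ste l b)) ≫ₕ J.toHomeomorph.toOpenPartialHomeomorph with hΦ
  have hsrc : Φ.source = {x | p x ≠ a ∧ q x ≠ b} := by
    ext x
    simp [hΦ, ste_source, hhx]
  have htgt : Φ.target = univ := by
    rw [hΦ]
    ext y
    simp [ste_target]
  have hΦx : ∀ x, Φ x = J (ste k a (p x), ste l b (q x)) := fun x => rfl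
  set U : TopologicalSpace.Opens M := ⟨Φ.source, Φ.open_source⟩ with hU
  let H : U ≃ₜ E n :=
    { toFun := fun x => Φ x
      invFun := fun y => ⟨Φ.symm y, Φ.map_target (by rw [htgt]; trivial)⟩
      left_inv := fun x => Subtype.ext (Φ.left_inv x.2)
      right_inv := fun y => Φ.right_inv (by rw [htgt]; trivial)
      continuous_toFun := continuousOn_iff_continuous_domRestrict.1 Φ.continuousOn
      continuous_invFun := by
        refine Continuous.subtype_mk ?_ _
        rw [← continuousOn_univ, ← htgt]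
        exact Φ.symm.continuousOn }
  have hHx : ∀ x : U, H x = Φ x.1 := fun x => rfl
  have hgood : ∀ x : U, NearS (n := n) p x.1 ∧ NearS (n := n) q x.1 →
      ∀ᶠ y in 𝓝 x, ContMDiffAt (𝓡 n) (𝓡 n) ∞ H y := by
    intro x hx
    have h0 : ∀ᶠ y : U in 𝓝 x, ContMDiffAt (𝓡 n) (𝓡 k) ∞ p y.1 ∧
        ContMDiffAt (𝓡 n) (𝓡 l) ∞ q y.1 :=
      continuous_subtype_val.continuousAt.eventually (hx.1.and hx.2)
    filter_upwards [h0] with y hy
    have hy' : p y.1 ≠ a ∧ q y.1 ≠ b := by
      have := y.2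
      have h2 : y.1 ∈ Φ.source := this
      rwa [hsrc] at h2
    have h3 : ContMDiffAt (𝓡 n) (𝓡 k) ∞ (fun x => ste k a (p x)) y.1 :=
      ContMDiffAt.comp (g := ste k a) y.1 (ste_smooth k a _ hy'.1) hy.1
    have h4 : ContMDiffAt (𝓡 n) (𝓡 l) ∞ (fun x => ste l b (q x)) y.1 :=
      ContMDiffAt.comp (g := ste l b) y.1 (ste_smooth l b _ hy'.2) hy.2
    have h5 : ContMDiffAt (𝓡 n) 𝓘(ℝ, E k × E l) ∞
        (fun x => (ste k a (p x), ste l b (q x))) y.1 := h3.prodMk_space h4
    have h6 : ContMDiffAt (𝓡 n) (𝓡 n) ∞ Φ y.1 :=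
      ContMDiffAt.comp (g := J) y.1 J.contDiff.contMDiff.contMDiffAt h5
    exact contMDiffAt_subtype_iff.2 h6
  have hB' : Measure.hausdorffMeasure 1 (H '' {x | ¬ ∀ᶠ y in 𝓝 x,
      ContMDiffAt (𝓡 n) (𝓡 n) ∞ H y}) = 0 := by
    obtain ⟨ga, hga, hga'⟩ := ste_amb k a
    obtain ⟨gb, hgb, hgb'⟩ := ste_amb l b
    set ι : Sp k × Sp l → E (k + 1) × E (l + 1) := Prod.map Subtype.val Subtype.val with hι
    have hiso : Isometry ι := isometry_subtype_coe.prodMap isometry_subtype_coe
    set B := (fun x => (p x, q x)) ''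
      {x | ¬ (NearS (n := n) p x ∧ NearS (n := n) q x)} with hBd
    set S := ι '' (B ∩ {u | u.1 ≠ a ∧ u.2 ≠ b}) with hS
    have h1 : Measure.hausdorffMeasure 1 S = 0 := by
      rw [hS, hiso.hausdorffMeasure_image (Or.inl zero_le_one)]
      exact measure_mono_null inter_subset_left hB
    have h2 : Measure.hausdorffMeasure 1
        ((fun u : E (k + 1) × E (l + 1) => J (ga u.1, gb u.2)) '' S) = 0 := by
      refine null_image h1 _ ?_
      rintro _ ⟨u, ⟨-, hu⟩, rfl⟩
      have h3 : ContDiffAt ℝ 1 ga (u.1 : E (k + 1)) := (hga' _ hu.1).of_le (by simp)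
      have h4 : ContDiffAt ℝ 1 gb (u.2 : E (l + 1)) := (hgb' _ hu.2).of_le (by simp)
      refine J.contDiff.contDiffAt.comp _ ?_
      exact (ContDiffAt.comp (g := ga) (ι u) h3 contDiffAt_fst).prodMk
        (ContDiffAt.comp (g := gb) (ι u) h4 contDiffAt_snd)
    refine measure_mono_null ?_ h2
    rintro _ ⟨x, hx, rfl⟩
    have hx2 : p x.1 ≠ a ∧ q x.1 ≠ b := by
      have h5 : x.1 ∈ Φ.source := x.2
      rwa [hsrc] at h5
    refine ⟨ι (p x.1, q x.1), ⟨(p x.1, q x.1), ⟨⟨x.1, fun hcon => hx (hgood x hcon), rfl⟩, hx2⟩,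
      rfl⟩, ?_⟩
    rw [hHx, hΦx]
    simp only [hι, Prod.map_fst, Prod.map_snd, hga, hgb]
  obtain ⟨Ψ⟩ := open_version n U H hB'
  refine ⟨fun y => (Ψ.symm y : M), Subtype.val_injective.comp Ψ.symm.injective, ?_, fun y => ?_⟩
  · have h1 : (fun y => ((Ψ.symm y : U) : M)) = Subtype.val ∘ Ψ.symm := rfl
    have h2 : range (Ψ.symm : E n → U) = univ :=
      Set.eq_univ_of_forall fun y => ⟨Ψ y, Ψ.symm_apply_apply y⟩
    rw [h1, range_comp, h2, image_univ, Subtype.range_val, ← hsrc]
    rfl
  · exact LD.comp_fun (ld_opens U (Ψ.symm y)) (Ψ.symm.isLocalDiffeomorph y)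

end

end Pool.Agent.N550.SH
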