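import Pool.Agent.N550.SH.Gen
import Pool.Agent.Y833.SH.Boundary

/-!
# Project SH: the theorems
-/

set_option autoImplicit false

open Set Filter Topology Metric Function MeasureTheory
open scoped Manifold ContDiff ENNReal NNReal

noncomputable section

namespace Pool.Agent.N550.SH

open Pool.Agent.Y522

theorem eng_zero' (X : Type) [TopologicalSpace X] [ChartedSpace (E 0) X] [IsManifold (𝓡 0) ∞ X]
    (H : X ≃ₜ E 0) : Eng 0 X := by
  intro K _
  set x₀ : X := H.symm 0 with hx₀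
  obtain ⟨p, hp1, hp2, -, -⟩ := (Pool.Agent.Y641.SH.LD_chart (n := 0) x₀).exists_inverse
  refine ⟨p, fun a b _ => Subsingleton.elim a b, fun x => ?_, fun x _ => ⟨0, ?_⟩⟩
  · rwa [Subsingleton.elim x (chartAt (E 0) x₀ x₀)]
  · rw [Subsingleton.elim (0 : E 0) (chartAt (E 0) x₀ x₀), hp2]
    exact H.injective (Subsingleton.elim _ _)

/-- the set of points near which a map to a Euclidean space is not smooth -/
def Bad {n k : ℕ} {X : Type} [TopologicalSpace X] [ChartedSpace (E n) X] (f : X → E k) : Set X :=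
  {x | ¬ ∀ᶠ y in 𝓝 x, ContMDiffAt (𝓡 n) (𝓡 k) ∞ f y}

theorem eng_bad {n : ℕ} {X : Type} [TopologicalSpace X] [ChartedSpace (E n) X]
    [IsManifold (𝓡 n) ∞ X] (H : X ≃ₜ E n)
    (hB : Measure.hausdorffMeasure 1 (H '' {x | ¬ ∀ᶠ y in 𝓝 x, ContMDiffAt (𝓡 n) (𝓡 n) ∞ H y})
      = 0) : Eng n X := by
  rcases n with _ | m
  · exact eng_zero' X H
  set G : Set X := {x | ∀ᶠ y in 𝓝 x, ContMDiffAt (𝓡 (m + 1)) (𝓡 (m + 1)) ∞ H y} with hGdef
  have hG : IsOpen G := isOpen_setOfPred_eventually_nhds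
  have hGc : {x | ¬ ∀ᶠ y in 𝓝 x, ContMDiffAt (𝓡 (m + 1)) (𝓡 (m + 1)) ∞ H y} = Gᶜ := rfl
  rw [hGc] at hB
  have hnull : ∀ f : E (m + 1) → ℝ, ContDiff ℝ 1 f → volume ((fun x => f (H x)) '' Gᶜ) = 0 := by
    intro f hf
    have h1 := null_image hB f fun x _ => hf.contDiffAt
    rw [hausdorffMeasure_real, image_image] at h1
    exact h1
  refine eng_exc H G hG (fun x hx => Filter.Eventually.self_of_nhds hx)
    (fun j => hnull (fun p => p j) (by fun_prop)) (hnull (fun p => ‖p‖ ^ 2) (contDiff_norm_sq ℝ))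

/-- **Open version.** -/
theorem open_version (n : ℕ) (X : Type) [TopologicalSpace X] [ChartedSpace (E n) X]
    [IsManifold (𝓡 n) ∞ X] (H : X ≃ₜ E n)
    (hB : Measure.hausdorffMeasure 1 (H '' {x | ¬ ∀ᶠ y in 𝓝 x, ContMDiffAt (𝓡 n) (𝓡 n) ∞ H y})
      = 0) : Nonempty (Diffeomorph (𝓡 n) (𝓡 n) X (E n) ∞) := by
  have : T2Space X := H.symm.t2Space
  have : SigmaCompactSpace X := H.isClosedEmbedding.sigmaCompactSpace
  exact Pool.Agent.Y496.SH.monotone (Pool.Agent.Y784.SH.ext Pool.Agent.Y248.SH.germ) n X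
    (eng_bad H hB)

open Pool.Agent.Y833.SH in
/-- **The interior of a smooth ball.** -/
theorem ball_version (m : ℕ) (M : Type) [TopologicalSpace M]
    [ChartedSpace (EuclideanHalfSpace (m + 1)) M] [IsManifold (𝓡∂ (m + 1)) ∞ M]
    (h : M ≃ₜ closedBall (0 : E (m + 1)) 1)
    (hB : Measure.hausdorffMeasure 1 ((fun x => (h x : E (m + 1))) ''
      {x | x ∈ (𝓡∂ (m + 1)).interior M ∧
        ¬ ∀ᶠ y in 𝓝 x, ContMDiffAt (𝓡∂ (m + 1)) (𝓡 (m + 1)) ∞ (fun x => (h x : E (m + 1))) y})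
      = 0) :
    ∃ j : E (m + 1) → M, Injective j ∧ range j = (𝓡∂ (m + 1)).interior M ∧
      ∀ x, IsLocalDiffeomorphAt (𝓡 (m + 1)) (𝓡∂ (m + 1)) ∞ j x := by
  have hE : Nontrivial (E (m + 1)) := inferInstance
  let := csI (M := M) (𝓡∂ (m + 1))
  have hmf : IsManifold (𝓡 (m + 1)) ∞ ((𝓡∂ (m + 1)).interior M) := mfI (M := M) (𝓡∂ (m + 1))
  set H := HH (𝓡∂ (m + 1)) hE h with hH
  have hmem : ∀ x : (𝓡∂ (m + 1)).interior M, (h x.1 : E (m + 1)) ∈ ball (0 : E (m + 1)) 1 :=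
    fun x => by
      rw [mem_ball_zero_iff]; exact (int_iff (𝓡∂ (m + 1)) hE h x.1).1 x.2
  have hgood : ∀ x : (𝓡∂ (m + 1)).interior M,
      (∀ᶠ y in 𝓝 (x : M), ContMDiffAt (𝓡∂ (m + 1)) (𝓡 (m + 1)) ∞
        (fun x => (h x : E (m + 1))) y) →
      ∀ᶠ y in 𝓝 x, ContMDiffAt (𝓡 (m + 1)) (𝓡 (m + 1)) ∞ H y := by
    intro x hx
    have h0 := (continuous_subtype_val (p := fun x => x ∈ (𝓡∂ (m + 1)).interior M)).continuousAt.eventually hx
    filter_upwards [h0] with y hy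
    have h2 : ContMDiffAt (𝓡 (m + 1)) (𝓡 (m + 1)) ∞
        (fun x : (𝓡∂ (m + 1)).interior M => (h x.1 : E (m + 1))) y :=
      ContMDiffAt.comp (g := fun x : M => (h x : E (m + 1))) y hy
        (contMDiff_val (𝓡∂ (m + 1)) y)
    have h3 : ContMDiffAt (𝓡 (m + 1)) (𝓡 (m + 1)) ∞
        (OpenPartialHomeomorph.univUnitBall.symm : E (m + 1) → E (m + 1)) (h y.1 : E (m + 1)) :=
      ((OpenPartialHomeomorph.contDiffOn_univUnitBall_symm (n := ⊤)).contDiffAt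
        (isOpen_ball.mem_nhds (hmem y))).contMDiffAt
    exact ContMDiffAt.comp (g := (OpenPartialHomeomorph.univUnitBall.symm : E (m + 1) → E (m + 1)))
      y h3 h2
  have hB' : Measure.hausdorffMeasure 1 (H '' {x | ¬ ∀ᶠ y in 𝓝 x,
      ContMDiffAt (𝓡 (m + 1)) (𝓡 (m + 1)) ∞ H y}) = 0 := by
    set S := (fun x => (h x : E (m + 1))) ''
      {x | x ∈ (𝓡∂ (m + 1)).interior M ∧
        ¬ ∀ᶠ y in 𝓝 x, ContMDiffAt (𝓡∂ (m + 1)) (𝓡 (m + 1)) ∞ (fun x => (h x : E (m + 1))) y}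
      with hS
    have h1 : Measure.hausdorffMeasure 1
        ((OpenPartialHomeomorph.univUnitBall.symm : E (m + 1) → E (m + 1)) '' S) = 0 := by
      refine null_image hB _ ?_
      rintro _ ⟨x, ⟨hx, -⟩, rfl⟩
      exact (OpenPartialHomeomorph.contDiffOn_univUnitBall_symm (n := 1)).contDiffAt
        (isOpen_ball.mem_nhds (hmem ⟨x, hx⟩))
    refine measure_mono_null ?_ h1
    rintro _ ⟨x, hx, rfl⟩
    exact ⟨h x.1, ⟨x.1, ⟨x.2, fun hcon => hx (hgood x hcon)⟩, rfl⟩, rfl⟩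
  obtain ⟨Φ⟩ := open_version (m + 1) _ H hB'
  refine ⟨fun y => (Φ.symm y : M), Subtype.val_injective.comp Φ.symm.injective, ?_, fun y => ?_⟩
  · have h1 : (fun y => ((Φ.symm y : (𝓡∂ (m + 1)).interior M) : M)) = Subtype.val ∘ Φ.symm := rfl
    have h2 : range (Φ.symm : E (m + 1) → (𝓡∂ (m + 1)).interior M) = univ :=
      Set.eq_univ_of_forall fun y => ⟨Φ y, Φ.symm_apply_apply y⟩
    rw [h1, range_comp, h2, image_univ, Subtype.range_val]
  · exact IsLocalDiffeomorphAt.comp (𝓡∂ (m + 1)) M (Φ.symm.isLocalDiffeomorph y)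
      (ldiff_val (𝓡∂ (m + 1)) (Φ.symm y))

end Pool.Agent.N550.SH
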