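import Pool.Agent.N550.SH.Cross

/-!
# Project SH: regular values of maps to the sphere of dimension two
-/

set_option autoImplicit false

open Set Filter Topology Metric Function MeasureTheory
open scoped Manifold ContDiff ENNReal NNReal

noncomputable section

namespace Pool.Agent.N550.SH

open Pool.Agent.Y522

/-- local parametrization of the sphere by all coordinates but one -/
theorem sphere_param (k : ℕ) (a : Sp k) (O : Set (Sp k)) (hO : IsOpen O) (ha : a ∈ O) :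
    ∃ (i : Fin (k + 1)) (δ : ℝ), 0 < δ ∧ ∀ c : Fin k → ℝ,
      (∀ t, |c t - (a : E (k + 1)) (i.succAbove t)| < δ) →
      ∃ u ∈ O, ∀ t, (u : E (k + 1)) (i.succAbove t) = c t := by
  have hna : ‖(a : E (k + 1))‖ = 1 := norm_eq_of_mem_sphere a
  obtain ⟨i, hi⟩ : ∃ i, (a : E (k + 1)) i ≠ 0 := by
    by_contra hcon
    push Not at hcon
    have : (a : E (k + 1)) = 0 := by
      ext i; exact hcon i
    rw [this, norm_zero] at hna
    exact zero_ne_one hna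
  obtain ⟨s, hss, hsa⟩ : ∃ s : ℝ, s ^ 2 = 1 ∧ s * |(a : E (k + 1)) i| = (a : E (k + 1)) i := by
    rcases lt_or_gt_of_ne hi with h | h
    · exact ⟨-1, by norm_num, by rw [abs_of_neg h]; ring⟩
    · exact ⟨1, by norm_num, by rw [abs_of_pos h]; ring⟩
  set w : (Fin k → ℝ) → E (k + 1) := fun c =>
    WithLp.toLp 2 (i.insertNth (s * Real.sqrt (1 - ∑ t, c t ^ 2)) c : Fin (k + 1) → ℝ) with hw
  have hwc : Continuous w := by
    refine (PiLp.continuous_toLp 2 _).comp ?_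
    rw [continuous_pi_iff]
    intro j
    refine Fin.succAboveCases i ?_ (fun t => ?_) j
    · simp only [Fin.insertNth_apply_same]
      fun_prop
    · simp only [Fin.insertNth_apply_succAbove]
      fun_prop
  have hwi : ∀ c, (w c) i = s * Real.sqrt (1 - ∑ t, c t ^ 2) := fun c => by
    simp [hw]
  have hwt : ∀ c t, (w c) (i.succAbove t) = c t := fun c t => by
    simp [hw]
  have hwn : ∀ c : Fin k → ℝ, ∑ t, c t ^ 2 < 1 → ‖w c‖ = 1 := by
    intro c hc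
    have h1 : ‖w c‖ ^ 2 = 1 := by
      rw [EuclideanSpace.norm_sq_eq, Fin.sum_univ_succAbove _ i]
      simp only [Real.norm_eq_abs, sq_abs, hwi, hwt]
      rw [mul_pow, hss, one_mul, Real.sq_sqrt (by linarith)]
      ring
    have h2 := norm_nonneg (w c)
    nlinarith
  set c₀ : Fin k → ℝ := fun t => (a : E (k + 1)) (i.succAbove t) with hc₀
  have hsum : ∑ t, c₀ t ^ 2 = 1 - (a : E (k + 1)) i ^ 2 := by
    have h1 : ‖(a : E (k + 1))‖ ^ 2 = 1 := by rw [hna]; norm_num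
    rw [EuclideanSpace.norm_sq_eq, Fin.sum_univ_succAbove _ i] at h1
    simp only [Real.norm_eq_abs, sq_abs] at h1
    simp only [hc₀]
    linarith
  have hw0 : w c₀ = a := by
    ext j
    refine Fin.succAboveCases i ?_ (fun t => ?_) j
    · rw [hwi, hsum]
      have h1 : (1 : ℝ) - (1 - (a : E (k + 1)) i ^ 2) = (a : E (k + 1)) i ^ 2 := by ring
      rw [h1, Real.sqrt_sq_eq_abs, hsa]
    · rw [hwt]
  obtain ⟨O', hO', hOO'⟩ := isOpen_induced_iff.1 hO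
  have h1 : ∀ᶠ c in 𝓝 c₀, w c ∈ O' ∧ ∑ t, c t ^ 2 < 1 := by
    refine Filter.Eventually.and ?_ ?_
    · apply hwc.continuousAt.eventually
      rw [hw0]
      apply hO'.mem_nhds
      rw [← hOO'] at ha
      exact ha
    · have h2 : Continuous fun c : Fin k → ℝ => ∑ t, c t ^ 2 := by fun_prop
      refine (isOpen_lt h2 continuous_const).mem_nhds ?_
      show ∑ t, c₀ t ^ 2 < 1
      rw [hsum]
      have : 0 < (a : E (k + 1)) i ^ 2 := by positivity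
      linarith
  obtain ⟨δ, hδ, h3⟩ := Metric.eventually_nhds_iff.1 h1
  refine ⟨i, δ, hδ, fun c hc => ?_⟩
  have h4 : dist c c₀ < δ := (dist_pi_lt_iff hδ).2 fun t => by
    rw [Real.dist_eq]
    exact hc t
  obtain ⟨h5, h6⟩ := h3 h4
  refine ⟨⟨w c, by rw [mem_sphere_zero_iff_norm]; exact hwn c h6⟩, ?_, fun t => hwt c t⟩
  rw [← hOO']
  exact h5

section

variable {m : ℕ} {M : Type} [TopologicalSpace M] [ChartedSpace (E (m + 1)) M]
  [IsManifold (𝓡 (m + 1)) ∞ M] [SecondCountableTopology M]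

omit [IsManifold (𝓡 (m + 1)) ∞ M] [SecondCountableTopology M] in
theorem coord_smooth {k : ℕ} (p : M → Sp k) {x : M}
    (h : ContMDiffAt (𝓡 (m + 1)) (𝓡 k) ∞ p x) (j : Fin (k + 1)) :
    ContMDiffAt (𝓡 (m + 1)) 𝓘(ℝ, ℝ) ∞ (fun x => (p x : E (k + 1)) j) x := by
  have := Fact.mk (@finrank_euclideanSpace_fin ℝ _ (k + 1))
  have h1 : ContMDiffAt (𝓡 k) 𝓘(ℝ, ℝ) ∞ (fun u : Sp k => (u : E (k + 1)) j) (p x) := by
    have h2 : ContMDiff (𝓡 k) 𝓘(ℝ, E (k + 1)) ∞ (fun u : Sp k => (u : E (k + 1))) :=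
      contMDiff_coe_sphere
    have h3 : ContDiff ℝ ∞ (fun v : E (k + 1) => v j) := by fun_prop
    exact h3.contMDiff.contMDiffAt.comp _ h2.contMDiffAt
  exact h1.comp x h

/-- **Regular values of maps to the two-dimensional sphere are dense.** -/
theorem sub_two (p : M → Sp 2) (G : Set M) (hG : IsOpen G)
    (hp : ∀ x ∈ G, ContMDiffAt (𝓡 (m + 1)) (𝓡 2) ∞ p x)
    (hnull : ∀ j : Fin 3, volume ((fun x => (p x : E 3) j) '' Gᶜ) = 0)
    (O : Set (Sp 2)) (hO : IsOpen O) (hne : O.Nonempty) :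
    ∃ a ∈ O, ∀ x, p x = a → x ∈ G ∧ Surjective (mfderiv (𝓡 (m + 1)) (𝓡 2) p x) := by
  obtain ⟨a, ha⟩ := hne
  obtain ⟨i, δ, hδ, hpar⟩ := sphere_param 2 a O hO ha
  set j₀ := i.succAbove 0 with hj₀
  set j₁ := i.succAbove 1 with hj₁
  set φ : M → ℝ := fun x => (p x : E 3) j₀ with hφ
  set ψ : M → ℝ := fun x => (p x : E 3) j₁ with hψ
  have hφG : ∀ x ∈ G, ContMDiffAt (𝓡 (m + 1)) 𝓘(ℝ, ℝ) ∞ φ x := fun x hx =>
    coord_smooth p (hp x hx) j₀
  have hψG : ∀ x ∈ G, ContMDiffAt (𝓡 (m + 1)) 𝓘(ℝ, ℝ) ∞ ψ x := fun x hx =>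
    coord_smooth p (hp x hx) j₁
  obtain ⟨c₁, hc₁, hc₁', hreg⟩ := exists_regular_exc φ G hG hφG (hnull j₀)
    (a := (a : E 3) j₀ - δ) (b := (a : E 3) j₀ + δ) (by linarith)
  set S : Set M := {x | φ x = c₁} with hS
  have hflat : LocFlat m S := by
    intro x hx
    have hx' : φ x = c₁ := hx
    obtain ⟨hxG, hdx⟩ := hreg x hx'
    obtain ⟨e, he, -, he2⟩ := Pool.Agent.Y641.SH.stAdapt m M φ x
      (by filter_upwards [hG.mem_nhds hxG] with y hy using hφG y hy) hdx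
    refine ⟨e, he, ?_⟩
    filter_upwards [he2] with y hy
    rw [hy, hx', sub_eq_zero]
    rfl
  obtain ⟨cs, hmf, hv1, hv2⟩ := Pool.Agent.Y641.SH.stLevel m M S hflat
  have hSG : ∀ s : S, (s : M) ∈ G := fun s => (hreg s s.2).1
  have hψS : ContMDiff (𝓡 m) 𝓘(ℝ, ℝ) ∞ (fun s : S => ψ s) := fun s =>
    ContMDiffAt.comp (g := ψ) s (hψG _ (hSG s)) (hv1 s)
  obtain ⟨c₂, hc₂, hc₂', hreg2⟩ := exists_regular Pool.Agent.N9.SH.sardM
    (fun s : S => ψ s) hψS (a := (a : E 3) j₁ - δ) (b := (a : E 3) j₁ + δ) (by linarith)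
  obtain ⟨u, huO, hu⟩ := hpar ![c₁, c₂] (by
    intro t
    fin_cases t
    · show |c₁ - (a : E 3) j₀| < δ
      rw [abs_lt]
      constructor <;> linarith
    · show |c₂ - (a : E 3) j₁| < δ
      rw [abs_lt]
      constructor <;> linarith)
  refine ⟨u, huO, fun x hx => ?_⟩
  have hx0 : φ x = c₁ := by
    have := hu 0
    simp only [hφ, hx]
    exact this
  have hx1 : ψ x = c₂ := by
    have := hu 1
    simp only [hψ, hx]
    exact this
  obtain ⟨hxG, hdx⟩ := hreg x hx0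
  refine ⟨hxG, ?_⟩
  have hdψ := hreg2 ⟨x, hx0⟩ hx1
  have hpx : MDifferentiableAt (𝓡 (m + 1)) (𝓡 2) p x := (hp x hxG).mdifferentiableAt (by simp)
  have hco : ∀ j : Fin 3, MDifferentiableAt (𝓡 2) 𝓘(ℝ, ℝ) (fun u : Sp 2 => (u : E 3) j) (p x) := by
    intro j
    have := Fact.mk (@finrank_euclideanSpace_fin ℝ _ (2 + 1))
    have h2 : ContMDiff (𝓡 2) 𝓘(ℝ, E 3) ∞ (fun u : Sp 2 => (u : E 3)) := contMDiff_coe_sphere
    have h3 : ContDiff ℝ ∞ (fun v : E 3 => v j) := by fun_prop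
    exact (h3.contMDiff.contMDiffAt.comp _ h2.contMDiffAt).mdifferentiableAt (by simp)
  set D : E (m + 1) →L[ℝ] E 2 := mfderiv (𝓡 (m + 1)) (𝓡 2) p x with hD
  set A₀ : E 2 →L[ℝ] ℝ := mfderiv (𝓡 2) 𝓘(ℝ, ℝ) (fun u : Sp 2 => (u : E 3) j₀) (p x) with hA₀
  set A₁ : E 2 →L[ℝ] ℝ := mfderiv (𝓡 2) 𝓘(ℝ, ℝ) (fun u : Sp 2 => (u : E 3) j₁) (p x) with hA₁
  set V : E m →L[ℝ] E (m + 1) := mfderiv (𝓡 m) (𝓡 (m + 1)) (Subtype.val : S → M) ⟨x, hx0⟩ with hV
  have e₀ : mfderiv (𝓡 (m + 1)) 𝓘(ℝ, ℝ) φ x = A₀.comp D := mfderiv_comp x (hco j₀) hpx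
  have e₁ : mfderiv (𝓡 (m + 1)) 𝓘(ℝ, ℝ) ψ x = A₁.comp D := mfderiv_comp x (hco j₁) hpx
  have hval : MDifferentiableAt (𝓡 m) (𝓡 (m + 1)) (Subtype.val : S → M) ⟨x, hx0⟩ :=
    (hv1 _).mdifferentiableAt (by simp)
  have e₂ : mfderiv (𝓡 m) 𝓘(ℝ, ℝ) (fun s : S => ψ s) ⟨x, hx0⟩ = (A₁.comp D).comp V := by
    rw [← e₁]
    exact mfderiv_comp (g := ψ) (⟨x, hx0⟩ : S) ((hψG x hxG).mdifferentiableAt (by simp)) hval
  have e₃ : (A₀.comp D).comp V = 0 := by
    rw [← e₀]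
    have h1 : mfderiv (𝓡 m) 𝓘(ℝ, ℝ) (φ ∘ (Subtype.val : S → M)) ⟨x, hx0⟩ =
        (mfderiv (𝓡 (m + 1)) 𝓘(ℝ, ℝ) φ x).comp V :=
      mfderiv_comp (g := φ) (⟨x, hx0⟩ : S) ((hφG x hxG).mdifferentiableAt (by simp)) hval
    have h2 : φ ∘ (Subtype.val : S → M) = fun _ => c₁ := funext fun s => s.2
    rw [h2, mfderiv_const] at h1
    exact h1.symm
  obtain ⟨v, hv⟩ : ∃ v, A₀ (D v) ≠ 0 := by
    by_contra hcon
    push Not at hcon
    exact hdx (e₀.trans (ContinuousLinearMap.ext hcon))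
  obtain ⟨w, hw⟩ : ∃ w, A₁ (D (V w)) ≠ 0 := by
    by_contra hcon
    push Not at hcon
    exact hdψ (e₂.trans (ContinuousLinearMap.ext hcon))
  have hw0 : A₀ (D (V w)) = 0 := DFunLike.congr_fun e₃ w
  have hli : LinearIndependent ℝ ![D v, D (V w)] := by
    rw [LinearIndependent.pair_iff]
    intro s t hst
    have h1 := congrArg A₀ hst
    rw [map_add, map_smul, map_smul, hw0, map_zero, smul_zero, add_zero, smul_eq_mul] at h1
    have hs : s = 0 := (mul_eq_zero.1 h1).resolve_right hv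
    rw [hs, zero_smul, zero_add] at hst
    have h2 := congrArg A₁ hst
    rw [map_smul, map_zero, smul_eq_mul] at h2
    exact ⟨hs, (mul_eq_zero.1 h2).resolve_right hw⟩
  have hspan := hli.span_eq_top_of_card_eq_finrank (by simp)
  have hle : Submodule.span ℝ (range ![D v, D (V w)]) ≤ LinearMap.range D.toLinearMap := by
    rw [Submodule.span_le]
    rintro _ ⟨t, rfl⟩
    fin_cases t
    · exact ⟨v, rfl⟩
    · exact ⟨V w, rfl⟩
  rw [hspan] at hle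
  intro y
  exact hle (Submodule.mem_top (x := y))

end

end Pool.Agent.N550.SH
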