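import Pool.Agent.N550.SH.Sub

/-!
# Project SH: homeomorphisms onto the product of two spheres
-/

set_option autoImplicit false

open Set Filter Topology Metric Function MeasureTheory
open scoped Manifold ContDiff ENNReal NNReal

noncomputable section

namespace Pool.Agent.N550.SH

open Pool.Agent.Y522

section

variable {n : ℕ} {M : Type} [TopologicalSpace M] [ChartedSpace (E n) M] [IsManifold (𝓡 n) ∞ M]

theorem ld_chart' (x₀ x : M) (hx : x ∈ (chartAt (E n) x₀).source) :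
    LD n (chartAt (E n) x₀) x := ⟨Pool.Agent.Y641.SH.chPD x₀, hx, fun _ _ => rfl⟩

theorem ld_chart_symm' (x₀ : M) (z : E n) (hz : z ∈ (chartAt (E n) x₀).target) :
    LD n (chartAt (E n) x₀).symm z :=
  ⟨(Pool.Agent.Y641.SH.chPD x₀).symm, hz, fun _ _ => rfl⟩

/-- an open smooth map is a local diffeomorphism at some point -/
theorem exists_ld (F : M → E n) (W : Set M) (hW : IsOpen W) (x₀ : M) (hx₀ : x₀ ∈ W)
    (hF : ∀ x ∈ W, ContMDiffAt (𝓡 n) (𝓡 n) ∞ F x)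
    (hop : ∀ V ⊆ W, IsOpen V → IsOpen (F '' V)) : ∃ x ∈ W, LD n F x := by
  set e := chartAt (E n) x₀ with he
  set T : Set (E n) := e.target ∩ e.symm ⁻¹' W with hT
  have hTo : IsOpen T := e.symm.continuousOn.isOpen_inter_preimage e.open_target hW
  have hsm : ∀ z ∈ T, ContDiffAt ℝ ∞ (fun z => F (e.symm z)) z := fun z hz =>
    contMDiffAt_iff_contDiffAt.1
      (ContMDiffAt.comp (g := F) z (hF _ hz.2) (ld_chart_symm' x₀ z hz.1).contMDiffAt)
  obtain ⟨z, hz, hdet⟩ : ∃ z ∈ T, (fderiv ℝ (fun z => F (e.symm z)) z).det ≠ 0 := by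
    by_contra hcon
    push Not at hcon
    have h1 := addHaar_image_eq_zero_of_det_fderivWithin_eq_zero volume (s := T)
      (f := fun z => F (e.symm z)) (f' := fun z => fderiv ℝ (fun z => F (e.symm z)) z)
      (fun z hz => ((hsm z hz).differentiableAt (by simp)).hasFDerivAt.hasFDerivWithinAt) hcon
    have h2 : (fun z => F (e.symm z)) '' T = F '' (W ∩ e.source) := by
      ext y
      constructor
      · rintro ⟨z, hz, rfl⟩
        exact ⟨e.symm z, ⟨hz.2, e.map_target hz.1⟩, rfl⟩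
      · rintro ⟨x, hx, rfl⟩
        refine ⟨e x, ⟨e.map_source hx.2, ?_⟩, ?_⟩
        · rw [mem_preimage, e.left_inv hx.2]
          exact hx.1
        · simp only
          rw [e.left_inv hx.2]
    rw [h2] at h1
    have h3 : IsOpen (F '' (W ∩ e.source)) := hop _ inter_subset_left (hW.inter e.open_source)
    have h4 : (F '' (W ∩ e.source)).Nonempty := ⟨F x₀, x₀, ⟨hx₀, mem_chart_source _ x₀⟩, rfl⟩
    exact (h3.measure_pos volume h4).ne' h1
  have h5 : LD n (fun z => F (e.symm z)) z := by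
    refine LD_of_contDiffAt (by filter_upwards [hTo.mem_nhds hz] with y hy using hsm y hy)
      ((fderiv ℝ (fun z => F (e.symm z)) z).toContinuousLinearEquivOfDetNeZero hdet) ?_
    rw [ContinuousLinearMap.coe_toContinuousLinearEquivOfDetNeZero]
    exact ((hsm z hz).differentiableAt (by simp)).hasFDerivAt
  have h6 : LD n e (e.symm z) := ld_chart' x₀ _ (e.map_target hz.1)
  have h7 : LD n (fun z => F (e.symm z)) (e (e.symm z)) := by
    rw [e.right_inv hz.1]; exact h5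
  refine ⟨e.symm z, hz.2, (h7.comp_fun h6).congr ?_⟩
  filter_upwards [e.open_source.mem_nhds (e.map_target hz.1)] with y hy
  rw [e.left_inv hy]

end

section

variable {k l n : ℕ} {M : Type} [TopologicalSpace M] [ChartedSpace (E n) M]

/-- a linear identification -/
def Jn (hn : k + l = n) : (E k × E l) ≃L[ℝ] E n := ContinuousLinearEquiv.ofFinrankEq (by
  rw [Module.finrank_prod]
  simp [hn])

/-- the chart given by two stereographic projections -/
def Ph (hn : k + l = n) {p : M → Sp k} {q : M → Sp l} (h : IsHomeomorph (fun x => (p x, q x)))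
    (a : Sp k) (b : Sp l) : OpenPartialHomeomorph M (E n) :=
  (IsHomeomorph.homeomorph _ h).toOpenPartialHomeomorph ≫ₕ
    ((ste k a).prod (ste l b)) ≫ₕ (Jn hn).toHomeomorph.toOpenPartialHomeomorph

omit [ChartedSpace (E n) M] in
theorem Ph_apply (hn : k + l = n) {p : M → Sp k} {q : M → Sp l}
    (h : IsHomeomorph (fun x => (p x, q x))) (a : Sp k) (b : Sp l) (x : M) :
    Ph hn h a b x = Jn hn (ste k a (p x), ste l b (q x)) := rfl

omit [ChartedSpace (E n) M] in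
theorem Ph_source (hn : k + l = n) {p : M → Sp k} {q : M → Sp l}
    (h : IsHomeomorph (fun x => (p x, q x))) (a : Sp k) (b : Sp l) :
    (Ph hn h a b).source = {x | p x ≠ a ∧ q x ≠ b} := by
  ext x
  have : (IsHomeomorph.homeomorph _ h) x = (p x, q x) := rfl
  simp [Ph, ste_source, this]

theorem Ph_smooth (hn : k + l = n) {p : M → Sp k} {q : M → Sp l}
    (h : IsHomeomorph (fun x => (p x, q x))) (a : Sp k) (b : Sp l) {x : M}
    (hp : ContMDiffAt (𝓡 n) (𝓡 k) ∞ p x) (hq : ContMDiffAt (𝓡 n) (𝓡 l) ∞ q x)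
    (ha : p x ≠ a) (hb : q x ≠ b) : ContMDiffAt (𝓡 n) (𝓡 n) ∞ (Ph hn h a b) x := by
  have h3 : ContMDiffAt (𝓡 n) (𝓡 k) ∞ (fun x => ste k a (p x)) x :=
    ContMDiffAt.comp (g := ste k a) x (ste_smooth k a _ ha) hp
  have h4 : ContMDiffAt (𝓡 n) (𝓡 l) ∞ (fun x => ste l b (q x)) x :=
    ContMDiffAt.comp (g := ste l b) x (ste_smooth l b _ hb) hq
  have h5 : ContMDiffAt (𝓡 n) 𝓘(ℝ, E k × E l) ∞
      (fun x => (ste k a (p x), ste l b (q x))) x := h3.prodMk_space h4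
  exact ContMDiffAt.comp (g := Jn hn) x (Jn hn).contDiff.contMDiff.contMDiffAt h5

/-- at a point where the chart is a local diffeomorphism the two kernels meet trivially -/
theorem Ph_inj [IsManifold (𝓡 n) ∞ M] (hn : k + l = n) {p : M → Sp k} {q : M → Sp l}
    (h : IsHomeomorph (fun x => (p x, q x))) (a : Sp k) (b : Sp l) {x : M}
    (hp : ContMDiffAt (𝓡 n) (𝓡 k) ∞ p x) (hq : ContMDiffAt (𝓡 n) (𝓡 l) ∞ q x)
    (ha : p x ≠ a) (hb : q x ≠ b) (hld : LD n (Ph hn h a b) x) (v : TangentSpace (𝓡 n) x)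
    (hpv : mfderiv (𝓡 n) (𝓡 k) p x v = 0) (hqv : mfderiv (𝓡 n) (𝓡 l) q x v = 0) : v = 0 := by
  have h1 : MDifferentiableAt (𝓡 n) (𝓡 n) (Ph hn h a b) x := hld.mdifferentiableAt
  set D : E n →L[ℝ] E n := mfderiv (𝓡 n) (𝓡 n) (Ph hn h a b) x with hD
  -- first component
  have ep : mfderiv (𝓡 n) (𝓡 k) (fun x => ste k a (p x)) x =
      (mfderiv (𝓡 k) (𝓡 k) (ste k a) (p x)).comp (mfderiv (𝓡 n) (𝓡 k) p x) :=
    mfderiv_comp x ((ste_smooth k a _ ha).mdifferentiableAt (by simp))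
      (hp.mdifferentiableAt (by simp))
  have eq : mfderiv (𝓡 n) (𝓡 l) (fun x => ste l b (q x)) x =
      (mfderiv (𝓡 l) (𝓡 l) (ste l b) (q x)).comp (mfderiv (𝓡 n) (𝓡 l) q x) :=
    mfderiv_comp x ((ste_smooth l b _ hb).mdifferentiableAt (by simp))
      (hq.mdifferentiableAt (by simp))
  set L₁ : E n →L[ℝ] E k := (ContinuousLinearMap.fst ℝ (E k) (E l)).comp
    ((Jn hn).symm : E n →L[ℝ] (E k × E l)) with hL₁
  set L₂ : E n →L[ℝ] E l := (ContinuousLinearMap.snd ℝ (E k) (E l)).comp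
    ((Jn hn).symm : E n →L[ℝ] (E k × E l)) with hL₂
  have f₁ : (fun x => ste k a (p x)) = L₁ ∘ (Ph hn h a b) := by
    funext y
    simp [hL₁, Ph_apply]
  have f₂ : (fun x => ste l b (q x)) = L₂ ∘ (Ph hn h a b) := by
    funext y
    simp [hL₂, Ph_apply]
  have g₁ : mfderiv (𝓡 n) (𝓡 k) (fun x => ste k a (p x)) x = L₁.comp D := by
    rw [f₁, mfderiv_comp x (L₁.contDiff.contMDiff.mdifferentiableAt (n := ∞) (by simp)) h1]
    rw [mfderiv_eq_fderiv, L₁.fderiv]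
    rfl
  have g₂ : mfderiv (𝓡 n) (𝓡 l) (fun x => ste l b (q x)) x = L₂.comp D := by
    rw [f₂, mfderiv_comp x (L₂.contDiff.contMDiff.mdifferentiableAt (n := ∞) (by simp)) h1]
    rw [mfderiv_eq_fderiv, L₂.fderiv]
    rfl
  have k₁ : L₁ (D v) = 0 := by
    have h2 := DFunLike.congr_fun (g₁.symm.trans ep) v
    refine h2.trans ?_
    show (mfderiv (𝓡 k) (𝓡 k) (ste k a) (p x)) (mfderiv (𝓡 n) (𝓡 k) p x v) = 0
    rw [hpv]
    exact map_zero _
  have k₂ : L₂ (D v) = 0 := by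
    have h2 := DFunLike.congr_fun (g₂.symm.trans eq) v
    refine h2.trans ?_
    show (mfderiv (𝓡 l) (𝓡 l) (ste l b) (q x)) (mfderiv (𝓡 n) (𝓡 l) q x v) = 0
    rw [hqv]
    exact map_zero _
  have k₃ : (Jn hn).symm (D v) = 0 := Prod.ext k₁ k₂
  have k₄ : D v = 0 := by
    rwa [map_eq_zero_iff _ (Jn hn).symm.injective] at k₃
  exact hld.mfderiv_injective (k₄.trans (map_zero _).symm)

end

section

variable {M : Type} [TopologicalSpace M] [ChartedSpace (E 4) M] [IsManifold (𝓡 4) ∞ M]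

/-- the coordinates of the image of an exceptional set are null -/
theorem coord_null {k l : ℕ} {B : Set M} (p : M → Sp k) (q : M → Sp l)
    (hB : Measure.hausdorffMeasure 1 ((fun x => (p x, q x)) '' B) = 0) (j : Fin (k + 1)) :
    volume ((fun x => (p x : E (k + 1)) j) '' B) = 0 := by
  have hl : LipschitzWith 1 (fun u : Sp k × Sp l => (u.1 : E (k + 1)) j) := by
    refine LipschitzWith.of_dist_le_mul fun u v => ?_
    rw [NNReal.coe_one, one_mul, Real.dist_eq]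
    have h1 : |(u.1 : E (k + 1)) j - (v.1 : E (k + 1)) j| ≤ ‖(u.1 : E (k + 1)) - (v.1 : E (k + 1))‖ :=
      PiLp.norm_apply_le ((u.1 : E (k + 1)) - (v.1 : E (k + 1))) j
    refine h1.trans ?_
    rw [← dist_eq_norm]
    exact le_max_left _ _
  have h2 := hl.hausdorffMeasure_image_le (d := 1) zero_le_one ((fun x => (p x, q x)) '' B)
  rw [hB, mul_zero, image_image, hausdorffMeasure_real] at h2
  exact le_antisymm h2 bot_le

/-- **Homeomorphisms onto the product of two spheres.** -/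
theorem two_spheres (p q : M → Sp 2) (h : IsHomeomorph (fun x => (p x, q x)))
    (hB : Measure.hausdorffMeasure 1 ((fun x => (p x, q x)) ''
      {x | ¬ (NearS (n := 4) p x ∧ NearS (n := 4) q x)}) = 0)
    (O₁ O₂ : Set (Sp 2)) (hO₁ : IsOpen O₁) (hO₂ : IsOpen O₂) (hne₁ : O₁.Nonempty)
    (hne₂ : O₂.Nonempty) :
    ∃ a ∈ O₁, ∃ b ∈ O₂,
      (∀ x, p x = a → NearS (n := 4) p x ∧ Surjective (mfderiv (𝓡 4) (𝓡 2) p x)) ∧
      (∀ x, q x = b → NearS (n := 4) q x ∧ Surjective (mfderiv (𝓡 4) (𝓡 2) q x)) ∧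
      (∀ x, p x = a → q x = b → ∀ v, mfderiv (𝓡 4) (𝓡 2) p x v = 0 →
        mfderiv (𝓡 4) (𝓡 2) q x v = 0 → v = 0) ∧
      ∃ j : E 4 → M, Injective j ∧ range j = {x | p x ≠ a ∧ q x ≠ b} ∧ ∀ y, LD 4 j y := by
  set hh : M ≃ₜ Sp 2 × Sp 2 := h.homeomorph with hhd
  have hhx : ∀ x, hh x = (p x, q x) := fun x => rfl
  have : SecondCountableTopology M := hh.secondCountableTopology
  have hpc : Continuous p := continuous_fst.comp h.continuous
  have hqc : Continuous q := continuous_snd.comp h.continuous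
  set G : Set M := {x | NearS (n := 4) p x ∧ NearS (n := 4) q x} with hGd
  have hG : IsOpen G := by
    have h1 : G = {x | ∀ᶠ y in 𝓝 x, ContMDiffAt (𝓡 4) (𝓡 2) ∞ p y ∧
        ContMDiffAt (𝓡 4) (𝓡 2) ∞ q y} := by
      ext x
      exact Filter.eventually_and.symm
    rw [h1]
    exact isOpen_setOfPred_eventually_nhds
  have hGc : {x | ¬ (NearS (n := 4) p x ∧ NearS (n := 4) q x)} = Gᶜ := rfl
  rw [hGc] at hB
  have hGp : ∀ x ∈ G, ContMDiffAt (𝓡 4) (𝓡 2) ∞ p x := fun x hx => hx.1.self_of_nhds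
  have hGq : ∀ x ∈ G, ContMDiffAt (𝓡 4) (𝓡 2) ∞ q x := fun x hx => hx.2.self_of_nhds
  have hBq : Measure.hausdorffMeasure 1 ((fun x => (q x, p x)) '' Gᶜ) = 0 := by
    have hl : LipschitzWith 1 (Prod.swap : Sp 2 × Sp 2 → Sp 2 × Sp 2) := by
      refine LipschitzWith.of_dist_le_mul fun u v => ?_
      rw [NNReal.coe_one, one_mul, Prod.dist_eq, Prod.dist_eq, max_comm]
      rfl
    have h2 := hl.hausdorffMeasure_image_le (d := 1) zero_le_one ((fun x => (p x, q x)) '' Gᶜ)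
    rw [hB, mul_zero, image_image] at h2
    exact le_antisymm h2 bot_le
  have subp := sub_two p G hG hGp (coord_null p q hB)
  have subq := sub_two q G hG hGq (coord_null q p hBq)
  -- a good point
  obtain ⟨a₀, ha₀, ha₀'⟩ := subp O₁ hO₁ hne₁
  obtain ⟨b₀, hb₀⟩ := hne₂
  obtain ⟨x₀, hx₀⟩ := h.surjective (a₀, b₀)
  have hpx₀ : p x₀ = a₀ := congrArg Prod.fst hx₀
  have hqx₀ : q x₀ = b₀ := congrArg Prod.snd hx₀
  set W : Set M := G ∩ {x | p x ∈ O₁} ∩ {x | q x ∈ O₂} ∩ {x | p x ≠ -a₀} ∩ {x | q x ≠ -b₀}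
    with hW
  have hWo : IsOpen W := by
    refine (((hG.inter (hO₁.preimage hpc)).inter (hO₂.preimage hqc)).inter ?_).inter ?_
    · exact isOpen_ne_fun hpc continuous_const
    · exact isOpen_ne_fun hqc continuous_const
  have hx₀W : x₀ ∈ W := by
    refine ⟨⟨⟨⟨(ha₀' x₀ hpx₀).1, ?_⟩, ?_⟩, ?_⟩, ?_⟩
    · show p x₀ ∈ O₁
      rw [hpx₀]; exact ha₀
    · show q x₀ ∈ O₂
      rw [hqx₀]; exact hb₀
    · show p x₀ ≠ -a₀
      rw [hpx₀]
      exact ne_neg_of_mem_unit_sphere ℝ a₀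
    · show q x₀ ≠ -b₀
      rw [hqx₀]
      exact ne_neg_of_mem_unit_sphere ℝ b₀
  set F := Ph (rfl : 2 + 2 = 4) h (-a₀) (-b₀) with hF
  have hFs : F.source = {x | p x ≠ -a₀ ∧ q x ≠ -b₀} := Ph_source _ h _ _
  have hWs : W ⊆ F.source := by
    rw [hFs]
    exact fun x hx => ⟨hx.1.2, hx.2⟩
  obtain ⟨x₁, hx₁, hld⟩ := exists_ld (n := 4) F W hWo x₀ hx₀W
    (fun x hx => Ph_smooth _ h _ _ (hGp x hx.1.1.1.1) (hGq x hx.1.1.1.1) hx.1.2 hx.2)
    (fun V hV hVo => F.isOpen_image_of_subset_source hVo (hV.trans hWs))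
  obtain ⟨V, hV, hVo, hx₁V⟩ := _root_.mem_nhds_iff.1 (Filter.inter_mem (hWo.mem_nhds hx₁) hld.eventually)
  have hop : IsOpen (hh '' V) := hh.isOpenMap _ hVo
  have hmem : (p x₁, q x₁) ∈ hh '' V := ⟨x₁, hx₁V, rfl⟩
  obtain ⟨P, hP, Q, hQ, hPQ⟩ := mem_nhds_prod_iff.1 (hop.mem_nhds hmem)
  obtain ⟨P', hP', hPo, hpP⟩ := _root_.mem_nhds_iff.1 hP
  obtain ⟨Q', hQ', hQo, hqQ⟩ := _root_.mem_nhds_iff.1 hQ
  obtain ⟨a, ha, ha'⟩ := subp P' hPo ⟨_, hpP⟩
  obtain ⟨b, hb, hb'⟩ := subq Q' hQo ⟨_, hqQ⟩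
  have key : ∀ x, p x ∈ P' → q x ∈ Q' → x ∈ V := by
    intro x hxp hxq
    obtain ⟨y, hy, hyx⟩ := hPQ (mk_mem_prod (hP' hxp) (hQ' hxq))
    have : y = x := hh.injective (by rw [hyx, hhx])
    rwa [← this]
  obtain ⟨z, hz⟩ := h.surjective (a, b)
  have hzp : p z = a := congrArg Prod.fst hz
  have hzq : q z = b := congrArg Prod.snd hz
  have hzV : z ∈ V := key z (by rw [hzp]; exact ha) (by rw [hzq]; exact hb)
  have hzW : z ∈ W := (hV hzV).1
  refine ⟨a, ?_, b, ?_, fun x hx => ⟨(ha' x hx).1.1, (ha' x hx).2⟩,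
    fun x hx => ⟨(hb' x hx).1.2, (hb' x hx).2⟩, ?_, cell (rfl : 2 + 2 = 4) p q h hB a b⟩
  · rw [← hzp]; exact hzW.1.1.1.2
  · rw [← hzq]; exact hzW.1.1.2
  · intro x hxa hxb v hpv hqv
    have hxV : x ∈ V := key x (by rw [hxa]; exact ha) (by rw [hxb]; exact hb)
    have hxW : x ∈ W := (hV hxV).1
    have hxld : LD 4 F x := (hV hxV).2
    exact Ph_inj (rfl : 2 + 2 = 4) h (-a₀) (-b₀) (hGp x hxW.1.1.1.1) (hGq x hxW.1.1.1.1) hxW.1.2
      hxW.2 hxld v hpv hqv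

end

end Pool.Agent.N550.SH
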