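import Pool.Agent.N550.SH.Lev

/-!
# Project SH: slices of boxes and of spheres
-/

set_option autoImplicit false

open Set Filter Topology Metric Function MeasureTheory
open scoped Manifold ContDiff

noncomputable section

namespace Pool.Agent.N550.SH

open Pool.Agent.Y522

/-! ### a diffeomorphism of an interval onto the line -/

/-- from the interval to the line -/
def tau (a b t : ℝ) : ℝ := Real.tan (Real.pi * ((t - a) / (b - a) - 1 / 2))

/-- from the line to the interval -/
def sig (a b y : ℝ) : ℝ := a + (b - a) * (Real.arctan y / Real.pi + 1 / 2)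

theorem sig_mem {a b : ℝ} (h : a < b) (y : ℝ) : a < sig a b y ∧ sig a b y < b := by
  have h1 := Real.neg_pi_div_two_lt_arctan y
  have h2 := Real.arctan_lt_pi_div_two y
  have hp := Real.pi_pos
  have h3 : -(1 / 2) < Real.arctan y / Real.pi := by
    rw [lt_div_iff₀ hp]; linarith
  have h4 : Real.arctan y / Real.pi < 1 / 2 := by
    rw [div_lt_iff₀ hp]; linarith
  have h5 : 0 < b - a := by linarith
  constructor <;> unfold sig <;> nlinarith

theorem continuous_sig (a b : ℝ) : Continuous (sig a b) := by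
  unfold sig
  exact continuous_const.add (continuous_const.mul
    ((Real.continuous_arctan.div_const _).add continuous_const))

theorem tau_sig {a b : ℝ} (h : a < b) (y : ℝ) : tau a b (sig a b y) = y := by
  have h5 : b - a ≠ 0 := by linarith
  have hp := Real.pi_pos.ne'
  have h6 : Real.pi * ((sig a b y - a) / (b - a) - 1 / 2) = Real.arctan y := by
    unfold sig
    field_simp
    ring
  unfold tau
  rw [h6, Real.tan_arctan]

theorem arg_mem {a b t : ℝ} (ha : a < t) (hb : t < b) :
    -(Real.pi / 2) < Real.pi * ((t - a) / (b - a) - 1 / 2) ∧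
      Real.pi * ((t - a) / (b - a) - 1 / 2) < Real.pi / 2 := by
  have h5 : 0 < b - a := by linarith
  have hp := Real.pi_pos
  have h1 : 0 < (t - a) / (b - a) := div_pos (by linarith) h5
  have h2 : (t - a) / (b - a) < 1 := by rw [div_lt_one h5]; linarith
  constructor <;> nlinarith

theorem sig_tau {a b t : ℝ} (ha : a < t) (hb : t < b) : sig a b (tau a b t) = t := by
  have h5 : b - a ≠ 0 := by linarith
  have hp := Real.pi_pos.ne'
  obtain ⟨h1, h2⟩ := arg_mem ha hb
  unfold tau sig
  rw [Real.arctan_tan h1 h2]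
  field_simp
  ring

theorem contDiffAt_tau {a b t : ℝ} (ha : a < t) (hb : t < b) : ContDiffAt ℝ ∞ (tau a b) t := by
  obtain ⟨h1, h2⟩ := arg_mem ha hb
  have h3 : Real.cos (Real.pi * ((t - a) / (b - a) - 1 / 2)) ≠ 0 :=
    (Real.cos_pos_of_mem_Ioo ⟨h1, h2⟩).ne'
  have h4 : ContDiffAt ℝ ∞ (fun t : ℝ => Real.pi * ((t - a) / (b - a) - 1 / 2)) t := by fun_prop
  exact ContDiffAt.comp t (Real.contDiffAt_tan.2 h3) h4

/-! ### slices of boxes -/

/-- an open box -/
def Bx {n : ℕ} (a b : Fin n → ℝ) : Set (E n) := {p | ∀ i, a i < p i ∧ p i < b i}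

theorem isOpen_Bx {n : ℕ} (a b : Fin n → ℝ) : IsOpen (Bx a b) := by
  have h : Bx a b = ⋂ i, {p : E n | a i < p i ∧ p i < b i} := by
    ext p; simp [Bx]
  rw [h]
  refine isOpen_iInter_of_finite fun i => ?_
  have h1 : Continuous fun p : E n => p i := by fun_prop
  exact (isOpen_lt continuous_const h1).inter (isOpen_lt h1 continuous_const)

/-- the coordinates on a slice -/
def thB {m : ℕ} (j : Fin (m + 1)) (a b : Fin (m + 1) → ℝ) (p : E (m + 1)) : E m :=
  WithLp.toLp 2 fun k : Fin m => tau (a (j.succAbove k)) (b (j.succAbove k)) (p (j.succAbove k))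

/-- the parametrization of a slice -/
def psB {m : ℕ} (j : Fin (m + 1)) (a b : Fin (m + 1) → ℝ) (c : ℝ) (y : E m) : E (m + 1) :=
  WithLp.toLp 2 (j.insertNth c fun k : Fin m => sig (a (j.succAbove k)) (b (j.succAbove k)) (y k) :
    Fin (m + 1) → ℝ)

theorem psB_same {m : ℕ} (j : Fin (m + 1)) (a b : Fin (m + 1) → ℝ) (c : ℝ) (y : E m) :
    psB j a b c y j = c := by
  simp [psB]

theorem psB_succAbove {m : ℕ} (j : Fin (m + 1)) (a b : Fin (m + 1) → ℝ) (c : ℝ) (y : E m)
    (k : Fin m) : psB j a b c y (j.succAbove k) =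
      sig (a (j.succAbove k)) (b (j.succAbove k)) (y k) := by
  simp [psB]

theorem continuous_psB {m : ℕ} (j : Fin (m + 1)) (a b : Fin (m + 1) → ℝ) (c : ℝ) :
    Continuous (psB j a b c) := by
  refine (PiLp.continuous_toLp 2 _).comp (continuous_pi fun i => ?_)
  refine Fin.succAboveCases j ?_ (fun k => ?_) i
  · simp only [Fin.insertNth_apply_same]
    exact continuous_const
  · simp only [Fin.insertNth_apply_succAbove]
    exact (continuous_sig _ _).comp (by fun_prop)

theorem contDiffAt_thB {m : ℕ} (j : Fin (m + 1)) (a b : Fin (m + 1) → ℝ) {p : E (m + 1)}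
    (hp : p ∈ Bx a b) : ContDiffAt ℝ ∞ (thB j a b) p := by
  rw [contDiffAt_euclidean]
  intro k
  have h1 : ContDiffAt ℝ ∞ (fun p : E (m + 1) => p (j.succAbove k)) p := by fun_prop
  exact ContDiffAt.comp p (contDiffAt_tau (hp _).1 (hp _).2) h1

/-- engulfing in a slice of a box -/
theorem slice_engulf {m : ℕ} (hE : StEng m) {X : Type} [TopologicalSpace X]
    [ChartedSpace (E (m + 1)) X] [IsManifold (𝓡 (m + 1)) ∞ X] (H : X ≃ₜ E (m + 1))
    (hH : ContMDiff (𝓡 (m + 1)) (𝓡 (m + 1)) ∞ H) (j : Fin (m + 1)) (a b : Fin (m + 1) → ℝ)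
    (hab : ∀ i, a i < b i) (c : ℝ) (hc1 : a j < c) (hc2 : c < b j)
    (hφ : ContMDiff (𝓡 (m + 1)) 𝓘(ℝ, ℝ) ∞ fun x => H x j - c)
    (hd : ∀ x, H x j - c = 0 → mfderiv (𝓡 (m + 1)) 𝓘(ℝ, ℝ) (fun x => H x j - c) x ≠ 0)
    (K : Set X) (hK : IsCompact K) (hKS : ∀ x ∈ K, H x ∈ Bx a b ∧ H x j - c = 0) :
    ∃ f : E m → X, Injective f ∧ ContMDiff (𝓡 m) (𝓡 (m + 1)) ∞ f ∧
      (∀ x, Injective (mfderiv (𝓡 m) (𝓡 (m + 1)) f x)) ∧
      (∀ x, H (f x) ∈ Bx a b ∧ H (f x) j - c = 0) ∧ K ⊆ range f := by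
  refine level_engulf hE (fun x => H x j - c) {x | H x ∈ Bx a b ∧ H x j - c = 0} (H ⁻¹' Bx a b)
    ((isOpen_Bx a b).preimage H.continuous) hφ (fun x hx => hx.1) (fun x hx => ?_)
    (fun x hx => hd x hx.2) (fun x => thB j a b (H x)) (fun x hx => ?_)
    (fun y => H.symm (psB j a b c y)) (H.symm.continuous.comp (continuous_psB j a b c))
    (fun y => ?_) (fun y => ?_) (fun x hx => ?_) K hK (fun x hx => hKS x hx)
  · exact ⟨fun h => h.2, fun h => ⟨hx, h⟩⟩
  · exact ContMDiffAt.comp (g := thB j a b) x (contDiffAt_thB j a b hx.1).contMDiffAt (hH x)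
  · simp only [mem_setOf_eq, Homeomorph.apply_symm_apply, psB_same, sub_self, and_true]
    intro i
    refine Fin.succAboveCases j ?_ (fun k => ?_) i
    · rw [psB_same]; exact ⟨hc1, hc2⟩
    · rw [psB_succAbove]; exact sig_mem (hab _) _
  · simp only [Homeomorph.apply_symm_apply]
    ext k
    simp only [thB, psB_succAbove]
    exact tau_sig (hab _) _
  · have h1 : psB j a b c (thB j a b (H x)) = H x := by
      ext i
      refine Fin.succAboveCases j ?_ (fun k => ?_) i
      · rw [psB_same]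
        have := hx.2
        linarith
      · rw [psB_succAbove]
        simp only [thB]
        exact sig_tau (hx.1 _).1 (hx.1 _).2
    rw [h1, H.symm_apply_apply]

end Pool.Agent.N550.SH
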