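import Pool.Agent.N550.SH.Sph

/-!
# Project SH: compact subsets of a manifold with a smooth homeomorphism onto `ℝ^n` are embeddable
-/

set_option autoImplicit false

open Set Filter Topology Metric Function MeasureTheory
open scoped Manifold ContDiff

noncomputable section

namespace Pool.Agent.N550.SH

open Pool.Agent.Y522

/-- the big closed cube -/
def Cu (n : ℕ) (R : ℝ) : Set (E n) := {p | ∀ i, |p i| ≤ R}

theorem isCompact_Cu (n : ℕ) (R : ℝ) : IsCompact (Cu n R) := by
  have hcl : IsClosed (Cu n R) := by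
    have h : Cu n R = ⋂ i, {p : E n | |p i| ≤ R} := by
      ext p; simp [Cu]
    rw [h]
    refine isClosed_iInter fun i => isClosed_le ?_ continuous_const
    have h1 : Continuous fun p : E n => p i := by fun_prop
    exact h1.abs
  refine Metric.isCompact_of_isClosed_isBounded hcl ?_
  refine (Metric.isBounded_iff_subset_closedBall 0).2 ⟨Real.sqrt (n * R ^ 2), fun p hp => ?_⟩
  rw [mem_closedBall_zero_iff]
  refine Real.le_sqrt_of_sq_le ?_
  rw [EuclideanSpace.norm_sq_eq]
  calc ∑ i, ‖p i‖ ^ 2 ≤ ∑ _i : Fin n, R ^ 2 := by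
        refine Finset.sum_le_sum fun i _ => ?_
        rw [Real.norm_eq_abs, sq_abs]
        exact sq_le_sq' (by linarith [(abs_le.1 (hp i)).1]) (abs_le.1 (hp i)).2
    _ = n * R ^ 2 := by simp

theorem dist_lt_of_coord {n : ℕ} {p q : E n} {δ : ℝ} (hδ : 0 < δ)
    (h : ∀ i, |p i - q i| ≤ δ / (n + 1)) : dist p q < δ := by
  rw [dist_eq_norm]
  refine lt_of_pow_lt_pow_left₀ 2 hδ.le ?_
  rw [EuclideanSpace.norm_sq_eq]
  have hn : (0 : ℝ) < (n : ℝ) + 1 := by positivity
  calc ∑ i, ‖(p - q) i‖ ^ 2 ≤ ∑ _i : Fin n, (δ / (n + 1)) ^ 2 := by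
        refine Finset.sum_le_sum fun i _ => ?_
        rw [Real.norm_eq_abs, sq_abs]
        have h1 : (p - q) i = p i - q i := rfl
        rw [h1, ← sq_abs]
        exact pow_le_pow_left₀ (abs_nonneg _) (h i) 2
    _ = n * (δ / (n + 1)) ^ 2 := by simp
    _ < δ ^ 2 := by
        rw [div_pow, ← mul_div_assoc, div_lt_iff₀ (by positivity)]
        have : (n : ℝ) < (n + 1) ^ 2 := by nlinarith
        have h2 : 0 < δ ^ 2 := by positivity
        nlinarith

section

variable {n : ℕ} {X : Type} [TopologicalSpace X] [ChartedSpace (E n) X] [IsManifold (𝓡 n) ∞ X]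

/-- small boxes in a big cube are embeddable -/
theorem emb_small (H : X ≃ₜ E n) (R : ℝ) : ∃ δ : ℝ, 0 < δ ∧ ∀ a b : Fin n → ℝ,
    (∀ i, -R ≤ a i ∧ b i ≤ R) → (∀ i, b i - a i < δ) → Emb n (H ⁻¹' Bx a b) := by
  choose U hU1 hU2 hU3 using fun x : X => emb_nhds (n := n) x
  obtain ⟨δ, hδ, hδ'⟩ := lebesgue_number_lemma_of_metric (isCompact_Cu n R)
    (c := fun x : X => H '' U x) (fun x => H.isOpenMap _ (hU1 x)) (by
      intro p _
      exact mem_iUnion.2 ⟨H.symm p, H.symm p, hU2 _, H.apply_symm_apply p⟩)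
  refine ⟨δ / (n + 1), by positivity, fun a b hab hs => ?_⟩
  by_cases hne : (Bx a b).Nonempty
  · obtain ⟨p, hp⟩ := hne
    have hpC : p ∈ Cu n R := fun i => abs_le.2 ⟨by linarith [(hab i).1, (hp i).1],
      by linarith [(hab i).2, (hp i).2]⟩
    obtain ⟨x, hx⟩ := hδ' p hpC
    refine emb_mono (hU3 x) fun y hy => ?_
    have h1 : H y ∈ ball p δ := by
      rw [mem_ball]
      refine dist_lt_of_coord hδ fun i => ?_
      have h2 : H y i ∈ Ioo (a i) (b i) := hy i
      rw [abs_le]
      constructor <;> linarith [hs i, (hp i).1, (hp i).2, h2.1, h2.2]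
    obtain ⟨z, hz, hzy⟩ := hx h1
    rwa [← H.injective hzy]
  · rw [not_nonempty_iff_eq_empty] at hne
    rw [hne, preimage_empty]
    by_cases hX : Nonempty X
    · obtain ⟨x⟩ := hX
      exact emb_mono (hU3 x) (empty_subset _)
    · exact absurd ⟨H.symm 0⟩ hX

end

section

variable {m : ℕ} {X : Type} [TopologicalSpace X] [ChartedSpace (E (m + 1)) X]
  [IsManifold (𝓡 (m + 1)) ∞ X]

theorem contMDiff_coord (H : X ≃ₜ E (m + 1)) (hH : ContMDiff (𝓡 (m + 1)) (𝓡 (m + 1)) ∞ H)
    (j : Fin (m + 1)) (c : ℝ) : ContMDiff (𝓡 (m + 1)) 𝓘(ℝ, ℝ) ∞ fun x => H x j - c := by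
  have h1 : ContDiff ℝ ∞ fun p : E (m + 1) => p j - c := by fun_prop
  exact h1.contMDiff.comp hH

/-- the splitting step -/
theorem emb_split (hE : StEng m) (hSM : StSardM) (hSum : StSum) (H : X ≃ₜ E (m + 1))
    (hH : ContMDiff (𝓡 (m + 1)) (𝓡 (m + 1)) ∞ H) (R δ : ℝ) (hδ : 0 < δ) (k : ℕ)
    (hk : k < m + 1)
    (ih : ∀ a b : Fin (m + 1) → ℝ, (∀ i, -R ≤ a i ∧ b i ≤ R) →
      (∀ i : Fin (m + 1), k ≤ i.val → b i - a i < δ) →
      ∀ K : Set X, IsCompact K → K ⊆ H ⁻¹' Bx a b → Emb (m + 1) K) (N : ℕ) :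
    ∀ a b : Fin (m + 1) → ℝ, (∀ i, -R ≤ a i ∧ b i ≤ R) →
      (∀ i : Fin (m + 1), k + 1 ≤ i.val → b i - a i < δ) →
      (b ⟨k, hk⟩ - a ⟨k, hk⟩ < δ + N * (δ / 4)) →
      ∀ K : Set X, IsCompact K → K ⊆ H ⁻¹' Bx a b → Emb (m + 1) K := by
  have : T2Space X := H.symm.t2Space
  have : SecondCountableTopology X := H.secondCountableTopology
  set j : Fin (m + 1) := ⟨k, hk⟩ with hj
  induction N with
  | zero =>
    intro a b hab hs hN K hK hKB
    refine ih a b hab (fun i hi => ?_) K hK hKB
    rcases hi.eq_or_lt with h | h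
    · have h1 : i = j := Fin.ext h.symm
      rw [h1]
      simpa using hN
    · exact hs i h
  | succ N ihN =>
    intro a b hab hs hN K hK hKB
    by_cases hne : (Bx a b).Nonempty
    swap
    · rw [not_nonempty_iff_eq_empty] at hne
      rw [hne, preimage_empty] at hKB
      obtain ⟨U, -, -, hU⟩ := emb_nhds (n := m + 1) (H.symm 0)
      exact emb_mono hU (hKB.trans (empty_subset _))
    obtain ⟨p, hp⟩ := hne
    have hlt : ∀ i, a i < b i := fun i => (hp i).1.trans (hp i).2
    by_cases hsm : b j - a j < δ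
    · refine ih a b hab (fun i hi => ?_) K hK hKB
      rcases hi.eq_or_lt with h | h
      · have h1 : i = j := Fin.ext h.symm
        rw [h1]
        exact hsm
      · exact hs i h
    push Not at hsm
    obtain ⟨c, hc1, hc2, hc3⟩ := exists_regular hSM (fun x => H x j - 0)
      (contMDiff_coord H hH j 0) (show (a j + b j) / 2 - δ / 8 < (a j + b j) / 2 + δ / 8 by linarith)
    have hca : a j < c := by linarith
    have hcb : c < b j := by linarith
    have hreg : ∀ x, H x j - c = 0 →
        mfderiv (𝓡 (m + 1)) 𝓘(ℝ, ℝ) (fun x => H x j - c) x ≠ 0 := by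
      intro x hx h0
      refine hc3 x (by simpa using sub_eq_zero.1 hx) ?_
      have h1 : MDifferentiableAt (𝓡 (m + 1)) 𝓘(ℝ, ℝ) (fun x => H x j - c) x :=
        (contMDiff_coord H hH j c).mdifferentiableAt (by simp)
      have h2 : (fun x => H x j - 0) = fun x => (fun t : ℝ => t + c) (H x j - c) := by
        funext y; simp
      rw [h2]
      have h3 : MDifferentiableAt 𝓘(ℝ, ℝ) 𝓘(ℝ, ℝ) (fun t : ℝ => t + c) (H x j - c) :=
        mdifferentiableAt_iff_differentiableAt.2 (by fun_prop)
      have h4 := mfderiv_comp x h3 h1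
      have h5 : (fun x => (fun t : ℝ => t + c) (H x j - c)) =
        (fun t : ℝ => t + c) ∘ fun x => H x j - c := rfl
      rw [h5, h4, h0]
      exact ContinuousLinearMap.comp_zero _
    obtain ⟨f, hf1, hf2, hf3, hf4, hf5⟩ := slice_engulf hE H hH j a b hlt c hca hcb
      (contMDiff_coord H hH j c) hreg (K ∩ {x | H x j - c = 0})
      (hK.inter_right (isClosed_eq (contMDiff_coord H hH j c).continuous continuous_const))
      (fun x hx => ⟨hKB hx.1, hx.2⟩)
    have h8 : (0 : ℝ) < δ / 8 := by linarith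
    refine hSum m X (H ⁻¹' Bx a b) K (fun x => H x j - c) f (contMDiff_coord H hH j c) hK hKB hf1 hf2
      hf3 (fun x => (hf4 x).2) (fun x => hreg _ (hf4 x).2) (fun x => (hf4 x).1)
      (fun x hx hx0 => hf5 ⟨hx, hx0⟩) ?_ ?_
    · intro K' hK' hKB' hneg
      refine ihN a (update b j (c + δ / 8)) ?_ ?_ ?_ K' hK' ?_
      · intro i
        refine ⟨(hab i).1, ?_⟩
        by_cases h : i = j
        · rw [h, update_self]
          linarith [(hab j).2]
        · rw [update_of_ne h]; exact (hab i).2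
      · intro i hi
        have h : i ≠ j := by
          rintro rfl
          simp [hj] at hi
        rw [update_of_ne h]
        exact hs i hi
      · rw [update_self]
        push_cast at hN
        linarith
      · intro x hx i
        by_cases h : i = j
        · rw [h, update_self]
          have h1 := hneg x hx
          exact ⟨(hKB' hx j).1, by linarith⟩
        · rw [update_of_ne h]; exact hKB' hx i
    · intro K' hK' hKB' hpos
      refine ihN (update a j (c - δ / 8)) b ?_ ?_ ?_ K' hK' ?_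
      · intro i
        refine ⟨?_, (hab i).2⟩
        by_cases h : i = j
        · rw [h, update_self]
          linarith [(hab j).1]
        · rw [update_of_ne h]; exact (hab i).1
      · intro i hi
        have h : i ≠ j := by
          rintro rfl
          simp [hj] at hi
        rw [update_of_ne h]
        exact hs i hi
      · rw [update_self]
        push_cast at hN
        linarith
      · intro x hx i
        by_cases h : i = j
        · rw [h, update_self]
          have h1 := hpos x hx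
          exact ⟨by linarith, (hKB' hx j).2⟩
        · rw [update_of_ne h]; exact hKB' hx i

/-- all compact subsets are embeddable -/
theorem emb_all (hE : StEng m) (hSM : StSardM) (hSum : StSum) (H : X ≃ₜ E (m + 1))
    (hH : ContMDiff (𝓡 (m + 1)) (𝓡 (m + 1)) ∞ H) (K : Set X) (hK : IsCompact K) :
    Emb (m + 1) K := by
  obtain ⟨R₀, hR₀⟩ := (hK.image H.continuous).isBounded.subset_closedBall (0 : E (m + 1))
  set R := max R₀ 0 + 1 with hR
  have hRpos : 0 < R := by positivity
  obtain ⟨δ, hδ, hsmall⟩ := emb_small (n := m + 1) H R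
  have key : ∀ k : ℕ, k ≤ m + 1 → ∀ a b : Fin (m + 1) → ℝ, (∀ i, -R ≤ a i ∧ b i ≤ R) →
      (∀ i : Fin (m + 1), k ≤ i.val → b i - a i < δ) →
      ∀ K : Set X, IsCompact K → K ⊆ H ⁻¹' Bx a b → Emb (m + 1) K := by
    intro k
    induction k with
    | zero =>
      intro _ a b hab hs K _ hKB
      exact emb_mono (hsmall a b hab fun i => hs i (Nat.zero_le _)) hKB
    | succ k ih =>
      intro hk a b hab hs K hK hKB
      obtain ⟨N, hN⟩ := exists_nat_gt (4 * (b ⟨k, hk⟩ - a ⟨k, hk⟩) / δ)
      refine emb_split hE hSM hSum H hH R δ hδ k hk (ih (by omega)) N a b hab hs ?_ K hK hKB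
      rw [div_lt_iff₀ hδ] at hN
      linarith
  refine key (m + 1) le_rfl (fun _ => -R) (fun _ => R) (fun _ => ⟨le_rfl, le_rfl⟩)
    (fun i hi => absurd i.2 (not_lt.2 hi)) K hK fun x hx i => ?_
  have h1 : ‖H x‖ ≤ R₀ := by
    simpa using hR₀ ⟨x, hx, rfl⟩
  have h2 : |H x i| ≤ ‖H x‖ := by
    have := EuclideanSpace.norm_sq_eq (H x)
    refine abs_le_of_sq_le_sq ?_ (norm_nonneg _)
    rw [this, ← sq_abs, ← Real.norm_eq_abs]
    exact Finset.single_le_sum (f := fun i => ‖(H x) i‖ ^ 2) (fun i _ => by positivity)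
      (Finset.mem_univ i)
  have h3 : |H x i| < R := by
    have := le_max_left R₀ 0
    linarith
  exact ⟨(abs_lt.1 h3).1, (abs_lt.1 h3).2⟩

end

end Pool.Agent.N550.SH
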