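import Pool.Agent.N550.SH.EmbAll

/-!
# Project SH: manifolds with a smooth homeomorphism onto `ℝ^n`
-/

set_option autoImplicit false

open Set Filter Topology Metric Function MeasureTheory
open scoped Manifold ContDiff

noncomputable section

namespace Pool.Agent.N550.SH

open Pool.Agent.Y522

/-- the case of dimension zero -/
theorem eng_zero : StEng 0 := by
  intro X _ _ _ H _ K _
  set x₀ : X := H.symm 0 with hx₀
  obtain ⟨p, hp1, hp2, -, -⟩ := (Pool.Agent.Y641.SH.LD_chart (n := 0) x₀).exists_inverse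
  refine ⟨p, fun a b _ => Subsingleton.elim a b, fun x => ?_, fun x _ => ⟨0, ?_⟩⟩
  · rwa [Subsingleton.elim x (chartAt (E 0) x₀ x₀)]
  · rw [Subsingleton.elim (0 : E 0) (chartAt (E 0) x₀ x₀), hp2]
    exact H.injective (Subsingleton.elim _ _)

section

variable {m : ℕ} {X : Type} [TopologicalSpace X] [ChartedSpace (E (m + 1)) X]
  [IsManifold (𝓡 (m + 1)) ∞ X]

/-- the step of the induction -/
theorem eng_step (hE : StEng m) (hSM : StSardM) (hSum : StSum) (hMz : StMazur) :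
    StEng (m + 1) := by
  intro X _ _ _ H hH K hK
  have : T2Space X := H.symm.t2Space
  have : SecondCountableTopology X := H.secondCountableTopology
  obtain ⟨R₀, hR₀⟩ := (hK.image H.continuous).isBounded.subset_closedBall (0 : E (m + 1))
  have hsm : ∀ c : ℝ, ContMDiff (𝓡 (m + 1)) 𝓘(ℝ, ℝ) ∞ fun x => ‖H x‖ ^ 2 - c := by
    intro c
    have h1 : ContDiff ℝ ∞ fun p : E (m + 1) => ‖p‖ ^ 2 - c :=
      (contDiff_norm_sq ℝ).sub contDiff_const
    exact h1.contMDiff.comp hH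
  obtain ⟨c, hc1, -, hc3⟩ := exists_regular hSM (fun x => ‖H x‖ ^ 2 - 0) (hsm 0)
    (show (max R₀ 0) ^ 2 < (max R₀ 0) ^ 2 + 1 by linarith)
  have hcpos : 0 < c := lt_of_le_of_lt (by positivity) hc1
  set r := Real.sqrt c with hr
  have hrpos : 0 < r := Real.sqrt_pos.2 hcpos
  have hrc : r ^ 2 = c := Real.sq_sqrt hcpos.le
  have hreg : ∀ x, ‖H x‖ ^ 2 - r ^ 2 = 0 →
      mfderiv (𝓡 (m + 1)) 𝓘(ℝ, ℝ) (fun x => ‖H x‖ ^ 2 - r ^ 2) x ≠ 0 := by
    intro x hx h0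
    refine hc3 x (by rw [hrc] at hx; linarith) ?_
    have h1 : MDifferentiableAt (𝓡 (m + 1)) 𝓘(ℝ, ℝ) (fun x => ‖H x‖ ^ 2 - r ^ 2) x :=
      (hsm (r ^ 2)).mdifferentiableAt (by simp)
    have h2 : (fun x => ‖H x‖ ^ 2 - 0) = (fun t : ℝ => t + r ^ 2) ∘ fun x => ‖H x‖ ^ 2 - r ^ 2 := by
      funext y; simp
    have h3 : MDifferentiableAt 𝓘(ℝ, ℝ) 𝓘(ℝ, ℝ) (fun t : ℝ => t + r ^ 2) (‖H x‖ ^ 2 - r ^ 2) :=
      mdifferentiableAt_iff_differentiableAt.2 (by fun_prop)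
    rw [h2, mfderiv_comp x h3 h1, h0]
    exact ContinuousLinearMap.comp_zero _
  set φ : X → ℝ := fun x => ‖H x‖ ^ 2 - r ^ 2 with hφdef
  have hφ : ContMDiff (𝓡 (m + 1)) 𝓘(ℝ, ℝ) ∞ φ := hsm (r ^ 2)
  have hball : ∀ t : ℝ, IsCompact {x : X | φ x ≤ t} := by
    intro t
    have h1 : {x : X | φ x ≤ t} = H.symm '' {p : E (m + 1) | ‖p‖ ^ 2 - r ^ 2 ≤ t} := by
      ext x
      constructor
      · intro hx
        exact ⟨H x, hx, H.symm_apply_apply x⟩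
      · rintro ⟨p, hp, rfl⟩
        change ‖H (H.symm p)‖ ^ 2 - r ^ 2 ≤ t
        rw [H.apply_symm_apply]
        exact hp
    rw [h1]
    refine IsCompact.image ?_ H.symm.continuous
    refine Metric.isCompact_of_isClosed_isBounded (isClosed_le (by fun_prop) continuous_const) ?_
    refine (Metric.isBounded_iff_subset_closedBall 0).2 ⟨Real.sqrt (t + r ^ 2), fun p hp => ?_⟩
    rw [mem_closedBall_zero_iff]
    refine Real.le_sqrt_of_sq_le ?_
    have : ‖p‖ ^ 2 - r ^ 2 ≤ t := hp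
    linarith
  obtain ⟨U, k, hU, hDU, hk, hkd⟩ := emb_all hE hSM hSum H hH _ (hball 1)
  have : Nonempty X := ⟨H.symm 0⟩
  obtain ⟨κ, hκ⟩ : ∃ κ : E (m + 1) → X, ∀ x ∈ U, κ (k x) = x :=
    ⟨invFunOn k U, fun x hx => hk.leftInvOn_invFunOn hx⟩
  have hκd : ∀ x ∈ U, LD (m + 1) κ (k x) := fun x hx => LD.inverse hU hkd hκ hx
  have hkc : ContinuousOn k U := fun x hx => (hkd x hx).continuousAt.continuousWithinAt
  -- the open subset `N` and the function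
  set N : Set (E (m + 1)) := k '' {x : X | x ∈ U ∧ φ x < 1} with hN
  have hUo : IsOpen {x : X | x ∈ U ∧ φ x < 1} := hU.inter (isOpen_lt hφ.continuous continuous_const)
  have hNo : IsOpen N := isOpen_image_of_LD hUo fun x hx => hkd x hx.1
  have hNm : ∀ z ∈ N, κ z ∈ U ∧ k (κ z) = z ∧ φ (κ z) < 1 := by
    rintro _ ⟨x, hx, rfl⟩
    rw [hκ x hx.1]
    exact ⟨hx.1, rfl, hx.2⟩
  have hκN : ∀ z ∈ N, LD (m + 1) κ z := by
    rintro _ ⟨x, hx, rfl⟩
    exact hκd x hx.1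
  have hDU0 : ∀ x, φ x ≤ 0 → x ∈ U ∧ φ x < 1 := fun x hx =>
    ⟨hDU (show φ x ≤ 1 by linarith), by linarith⟩
  have hψd : ∀ z ∈ N, ContDiffAt ℝ ∞ (fun z => φ (κ z)) z := fun z hz =>
    contMDiffAt_iff_contDiffAt.1 (ContMDiffAt.comp (g := φ) z (hφ _) (hκN z hz).contMDiffAt)
  have hcomp : IsCompact {z | z ∈ N ∧ φ (κ z) ≤ 0} := by
    have h1 : {z | z ∈ N ∧ φ (κ z) ≤ 0} = k '' {x : X | φ x ≤ 0} := by
      ext z
      constructor
      · rintro ⟨hz, hz0⟩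
        exact ⟨κ z, hz0, (hNm z hz).2.1⟩
      · rintro ⟨x, hx, rfl⟩
        have hx' : φ x ≤ 0 := hx
        have h2 := hDU0 x hx'
        refine ⟨⟨x, h2, rfl⟩, ?_⟩
        rw [hκ x h2.1]
        exact hx'
    rw [h1]
    exact (hball 0).image_of_continuousOn (hkc.mono fun x hx => (hDU0 x hx).1)
  have hφk : ∀ x ∈ U, φ =ᶠ[𝓝 x] (fun z => φ (κ z)) ∘ k := by
    intro x hx
    filter_upwards [hU.mem_nhds hx] with y hy
    simp [hκ y hy]
  have hregN : ∀ z ∈ N, φ (κ z) = 0 → fderiv ℝ (fun z => φ (κ z)) z ≠ 0 := by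
    intro z hz hz0 hcon
    obtain ⟨hxU, hkz, -⟩ := hNm z hz
    refine hreg (κ z) hz0 ?_
    have h1 : mfderiv (𝓡 (m + 1)) 𝓘(ℝ, ℝ) φ (κ z) =
        mfderiv (𝓡 (m + 1)) 𝓘(ℝ, ℝ) ((fun z => φ (κ z)) ∘ k) (κ z) :=
      (hφk _ hxU).mfderiv_eq
    have h3 : MDifferentiableAt (𝓡 (m + 1)) 𝓘(ℝ, ℝ) (fun z => φ (κ z)) (k (κ z)) := by
      rw [hkz]
      exact mdifferentiableAt_iff_differentiableAt.2 ((hψd z hz).differentiableAt (by simp))
    have h4 : mfderiv (𝓡 (m + 1)) 𝓘(ℝ, ℝ) (fun z => φ (κ z)) (k (κ z)) = 0 := by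
      rw [hkz, mfderiv_eq_fderiv]
      exact hcon
    change mfderiv (𝓡 (m + 1)) 𝓘(ℝ, ℝ) φ (κ z) = 0
    rw [h1, mfderiv_comp _ h3 (hkd _ hxU).mdifferentiableAt, h4]
    exact ContinuousLinearMap.zero_comp _
  -- the point
  set s₀ : X := H.symm (cn r 0) with hs₀
  have hHs₀ : H s₀ = cn r 0 := H.apply_symm_apply _
  have hφs₀ : φ s₀ = 0 := by
    change ‖H s₀‖ ^ 2 - r ^ 2 = 0
    rw [hHs₀, norm_cn_sq]
    simp
  have hs₀U := hDU0 s₀ hφs₀.le
  obtain ⟨g, hg1, hg2, hg3, hg4⟩ := hMz m N (fun z => φ (κ z)) (k s₀) hNo hψd hcomp hregN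
    ⟨s₀, hs₀U, rfl⟩ (by simp only [hκ s₀ hs₀U.1, hφs₀]) (by
      intro K' hK' hK'S
      have hK1 : IsCompact (κ '' K') :=
        hK'.image_of_continuousOn fun z hz => (hκN z (hK'S z hz).1).continuousAt.continuousWithinAt
      obtain ⟨f, hf1, hf2, hf3, hf4, hf5⟩ := sphere_engulf hE H hH r hrpos s₀ hHs₀ hφ hreg (κ '' K')
        hK1 (by
          rintro _ ⟨z, hz, rfl⟩
          obtain ⟨h1, h2, h3⟩ := hK'S z hz
          refine ⟨h2, fun h4 => h3 ?_⟩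
          rw [← (hNm z h1).2.1, h4])
      have hfU : ∀ x, f x ∈ U ∧ φ (f x) < 1 := fun x => hDU0 _ (hf4 x).1.le
      have hkf : ContMDiff (𝓡 m) (𝓡 (m + 1)) ∞ (fun x => k (f x)) := fun x =>
        ContMDiffAt.comp (g := k) x (hkd _ (hfU x).1).contMDiffAt (hf2 x)
      refine ⟨fun x => k (f x), fun a b hab => hf1 (hk (hfU a).1 (hfU b).1 hab),
        hkf.contDiff, fun x => ?_, fun x => ⟨⟨f x, hfU x, rfl⟩, ?_, ?_⟩, ?_⟩
      · have h1 : fderiv ℝ (fun x => k (f x)) x =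
            (mfderiv (𝓡 (m + 1)) (𝓡 (m + 1)) k (f x)).comp (mfderiv (𝓡 m) (𝓡 (m + 1)) f x) := by
          rw [← mfderiv_eq_fderiv]
          exact mfderiv_comp x (hkd _ (hfU x).1).mdifferentiableAt (hf2.mdifferentiableAt (by simp))
        rw [h1]
        exact (hkd _ (hfU x).1).mfderiv_injective.comp (hf3 x)
      · simp only [hκ _ (hfU x).1]
        exact (hf4 x).1
      · intro h
        exact (hf4 x).2 (hk (hfU x).1 hs₀U.1 h)
      · intro z hz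
        obtain ⟨y, hy⟩ := hf5 ⟨z, hz, rfl⟩
        refine ⟨y, ?_⟩
        simp only [hy]
        exact (hNm z (hK'S z hz).1).2.1)
    (k '' K) (by
      refine hK.image_of_continuousOn (hkc.mono fun x hx => (hDU0 x ?_).1)
      have h1 : ‖H x‖ ≤ R₀ := by simpa using hR₀ ⟨x, hx, rfl⟩
      have h2 : ‖H x‖ ^ 2 ≤ (max R₀ 0) ^ 2 :=
        pow_le_pow_left₀ (norm_nonneg _) (h1.trans (le_max_left _ _)) 2
      change ‖H x‖ ^ 2 - r ^ 2 ≤ 0
      rw [hrc]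
      linarith) (by
      rintro _ ⟨x, hx, rfl⟩
      have h1 : ‖H x‖ ≤ R₀ := by simpa using hR₀ ⟨x, hx, rfl⟩
      have h2 : ‖H x‖ ^ 2 ≤ (max R₀ 0) ^ 2 :=
        pow_le_pow_left₀ (norm_nonneg _) (h1.trans (le_max_left _ _)) 2
      have h3 : φ x < 0 := by
        change ‖H x‖ ^ 2 - r ^ 2 < 0
        rw [hrc]
        linarith
      have h4 := hDU0 x h3.le
      refine ⟨⟨x, h4, rfl⟩, ?_⟩
      simp only [hκ x h4.1]
      exact h3)
  refine ⟨fun x => κ (g x), fun a b hab => hg1 ?_, fun x => LD.comp_fun (hκN _ (hg4 x).1) (hg2 x),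
    fun x hx => ?_⟩
  · rw [← (hNm _ (hg4 a).1).2.1, ← (hNm _ (hg4 b).1).2.1]
    exact congrArg k hab
  · obtain ⟨y, hy⟩ := hg3 ⟨x, hx, rfl⟩
    refine ⟨y, ?_⟩
    have h1 : ‖H x‖ ≤ R₀ := by simpa using hR₀ ⟨x, hx, rfl⟩
    have h2 : ‖H x‖ ^ 2 ≤ (max R₀ 0) ^ 2 :=
      pow_le_pow_left₀ (norm_nonneg _) (h1.trans (le_max_left _ _)) 2
    have h3 : φ x ≤ 0 := by
      change ‖H x‖ ^ 2 - r ^ 2 ≤ 0
      rw [hrc]
      linarith
    simp only [hy]
    exact hκ x (hDU0 x h3).1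

end

/-- manifolds with a smooth homeomorphism onto `ℝ^n` are engulfed -/
theorem eng_all (hSM : StSardM) (hSum : StSum) (hMz : StMazur) (n : ℕ) : StEng n := by
  induction n with
  | zero => exact eng_zero
  | succ n ih => exact eng_step ih hSM hSum hMz

end Pool.Agent.N550.SH
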