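import Pool.Agent.N550.SH.Sph
import Pool.Agent.N9.SH1

/-!
# Project SH: exceptional sets; Sard's theorem off an exceptional set; smooth functions with given
sign
-/

set_option autoImplicit false

open Set Filter Topology Metric Function MeasureTheory
open scoped Manifold ContDiff ENNReal NNReal

noncomputable section

namespace Pool.Agent.N550.SH

open Pool.Agent.Y522

/-- images of sets of vanishing one-dimensional Hausdorff measure under maps of class `C¹` -/
theorem null_image {E' F' : Type} [NormedAddCommGroup E'] [NormedSpace ℝ E']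
    [MeasurableSpace E'] [BorelSpace E'] [SecondCountableTopology E'] [NormedAddCommGroup F']
    [NormedSpace ℝ F'] [MeasurableSpace F'] [BorelSpace F'] {S : Set E'}
    (hS : Measure.hausdorffMeasure 1 S = 0) (f : E' → F') (hf : ∀ x ∈ S, ContDiffAt ℝ 1 f x) :
    Measure.hausdorffMeasure 1 (f '' S) = 0 := by
  have h : ∀ x ∈ S, ∃ V ∈ 𝓝 x, Measure.hausdorffMeasure 1 (f '' (S ∩ V)) = 0 := by
    intro x hx
    obtain ⟨K, t, ht, hK⟩ := (hf x hx).exists_lipschitzOnWith
    refine ⟨t, ht, ?_⟩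
    have h1 := (hK.mono (inter_subset_right (s := S))).hausdorffMeasure_image_le (zero_le_one)
    have h2 : Measure.hausdorffMeasure 1 (S ∩ t) = 0 := measure_mono_null inter_subset_left hS
    rw [h2, mul_zero] at h1
    exact le_antisymm h1 bot_le
  choose! V hV hr using h
  obtain ⟨t, hts, htc, hcov⟩ := TopologicalSpace.countable_cover_nhdsWithin
    (s := S) (f := V) (fun x hx => mem_nhdsWithin_of_mem_nhds (hV x hx))
  have h1 : f '' S ⊆ ⋃ x ∈ t, f '' (S ∩ V x) := by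
    rintro _ ⟨y, hy, rfl⟩
    obtain ⟨x, hx, hyx⟩ := mem_iUnion₂.1 (hcov hy)
    exact mem_iUnion₂.2 ⟨x, hx, y, ⟨hy, hyx⟩, rfl⟩
  refine measure_mono_null h1 ?_
  rw [measure_biUnion_null_iff htc]
  exact fun x hx => hr x (hts hx)

/-- Sard's theorem for functions which are smooth on an open set -/
theorem sard_open {n : ℕ} {X : Type} [TopologicalSpace X] [SecondCountableTopology X]
    [ChartedSpace (E n) X] [IsManifold (𝓡 n) ∞ X] (f : X → ℝ) (G : Set X) (hG : IsOpen G)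
    (hf : ∀ x ∈ G, ContMDiffAt (𝓡 n) 𝓘(ℝ, ℝ) ∞ f x) :
    volume (f '' {x | x ∈ G ∧ mfderiv (𝓡 n) 𝓘(ℝ, ℝ) f x = 0}) = 0 := by
  apply Pool.Agent.N9.SH.null_of_local
  intro x hx
  set φ := chartAt (E n) x with hφ
  refine ⟨φ.source, φ.open_source.mem_nhds (mem_chart_source _ x), ?_⟩
  have hsym : ∀ z ∈ φ.target, ContMDiffAt (𝓡 n) (𝓡 n) ∞ φ.symm z := by
    intro z hz
    exact (contMDiffOn_chart_symm z hz).contMDiffAt (φ.open_target.mem_nhds hz)
  have hU : IsOpen (φ.target ∩ φ.symm ⁻¹' G) :=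
    φ.symm.continuousOn.isOpen_inter_preimage φ.open_target hG
  have hg : ∀ z ∈ φ.target ∩ φ.symm ⁻¹' G, ContDiffAt ℝ ∞ (fun z => f (φ.symm z)) z := by
    intro z hz
    exact contMDiffAt_iff_contDiffAt.1
      (ContMDiffAt.comp (g := f) z (hf _ hz.2) (hsym z hz.1))
  refine measure_mono_null ?_ (Pool.Agent.N9.SH.sard n _ hU _ hg)
  rintro _ ⟨y, ⟨⟨hyG, hy⟩, hys⟩, rfl⟩
  have h1 : φ.symm (φ y) = y := φ.left_inv hys
  refine ⟨φ y, ⟨⟨φ.map_source hys, ?_⟩, ?_⟩, ?_⟩
  · rw [mem_preimage, h1]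
    exact hyG
  · rw [← mfderiv_eq_fderiv]
    have h2 : mfderiv (𝓡 n) 𝓘(ℝ, ℝ) (f ∘ φ.symm) (φ y) =
        (mfderiv (𝓡 n) 𝓘(ℝ, ℝ) f (φ.symm (φ y))).comp (mfderiv (𝓡 n) (𝓡 n) φ.symm (φ y)) :=
      mfderiv_comp _ (by rw [h1]; exact (hf y hyG).mdifferentiableAt (by simp))
        ((hsym _ (φ.map_source hys)).mdifferentiableAt (by simp))
    have h3 : mfderiv (𝓡 n) 𝓘(ℝ, ℝ) f (φ.symm (φ y)) = 0 := by
      rw [h1]; exact hy
    change mfderiv (𝓡 n) 𝓘(ℝ, ℝ) (f ∘ φ.symm) (φ y) = 0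
    rw [h2, h3]
    rfl
  · simp only
    rw [h1]

/-- regular values outside the image of the exceptional set are dense -/
theorem exists_regular_exc {n : ℕ} {X : Type} [TopologicalSpace X]
    [SecondCountableTopology X] [ChartedSpace (E n) X] [IsManifold (𝓡 n) ∞ X] (f : X → ℝ)
    (G : Set X) (hG : IsOpen G) (hf : ∀ x ∈ G, ContMDiffAt (𝓡 n) 𝓘(ℝ, ℝ) ∞ f x)
    (hnull : volume (f '' Gᶜ) = 0) {a b : ℝ} (hab : a < b) :
    ∃ c : ℝ, a < c ∧ c < b ∧ ∀ x, f x = c → x ∈ G ∧ mfderiv (𝓡 n) 𝓘(ℝ, ℝ) f x ≠ 0 := by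
  have h1 := sard_open f G hG hf
  have h2 : ¬ (Ioo a b ⊆ f '' {x | x ∈ G ∧ mfderiv (𝓡 n) 𝓘(ℝ, ℝ) f x = 0} ∪ f '' Gᶜ) := by
    intro hsub
    have h3 := measure_mono_null hsub (measure_union_null h1 hnull)
    rw [Real.volume_Ioo, ENNReal.ofReal_eq_zero] at h3
    linarith
  obtain ⟨c, hc, hc'⟩ := not_subset.1 h2
  refine ⟨c, hc.1, hc.2, fun x hx => ?_⟩
  have hxG : x ∈ G := by
    by_contra hcon
    exact hc' (Or.inr ⟨x, hcon, hx⟩)
  exact ⟨hxG, fun h0 => hc' (Or.inl ⟨x, ⟨hxG, h0⟩, hx⟩)⟩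

/-- A continuous function which is smooth near its zeros can be replaced by a smooth one with the
same signs and the same germs at the zeros. -/
theorem sign_smooth {n : ℕ} {X : Type} [TopologicalSpace X] [T2Space X] [SigmaCompactSpace X]
    [ChartedSpace (E n) X] [IsManifold (𝓡 n) ∞ X] (f : X → ℝ) (hc : Continuous f) (G : Set X)
    (hG : IsOpen G) (hf : ∀ x ∈ G, ContMDiffAt (𝓡 n) 𝓘(ℝ, ℝ) ∞ f x)
    (hz : ∀ x, f x = 0 → x ∈ G) :
    ∃ g : X → ℝ, ContMDiff (𝓡 n) 𝓘(ℝ, ℝ) ∞ g ∧ (∀ x, 0 < f x → 0 < g x) ∧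
      (∀ x, f x < 0 → g x < 0) ∧ ∀ x, f x = 0 → g =ᶠ[𝓝 x] f := by
  have : LocallyCompactSpace X := ChartedSpace.locallyCompactSpace (E n) X
  have hZ : IsClosed {x | f x = 0} := isClosed_eq hc continuous_const
  obtain ⟨V, hV, hZV, hVG⟩ := normal_exists_closure_subset hZ hG hz
  classical
  let t : X → Set ℝ := fun x => if x ∈ closure V then {f x} else
    if 0 < f x then Ioi 0 else Iio 0
  have htmem : ∀ y, f y ∈ t y := by
    intro y
    by_cases h1 : y ∈ closure V
    · simp [t, h1]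
    · have h2 : f y ≠ 0 := fun h => h1 (subset_closure (hZV h))
      by_cases h3 : 0 < f y
      · simp [t, h1, h3]
      · simp [t, h1, h3, lt_of_le_of_ne (not_lt.1 h3) h2]
  obtain ⟨g, hg⟩ := exists_contMDiffMap_forall_mem_convex_of_local (𝓡 n) (n := ⊤) (t := t) (by
    intro x
    by_cases h1 : x ∈ closure V
    · simp only [t, h1, if_true]
      exact convex_singleton _
    · by_cases h3 : 0 < f x
      · simp only [t, h1, h3, if_true, if_false]
        exact convex_Ioi _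
      · simp only [t, h1, h3, if_false]
        exact convex_Iio _) (by
    intro x
    by_cases h1 : x ∈ closure V
    · refine ⟨G, hG.mem_nhds (hVG h1), f, fun y hy => (hf y hy).contMDiffWithinAt,
        fun y _ => htmem y⟩
    · have h2 : f x ≠ 0 := fun h => h1 (subset_closure (hZV h))
      rcases lt_or_gt_of_ne h2 with h3 | h3
      · refine ⟨(closure V)ᶜ ∩ {y | f y < 0}, inter_mem
          (isClosed_closure.isOpen_compl.mem_nhds h1) ((isOpen_lt hc continuous_const).mem_nhds h3),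
          fun _ => -1, contMDiffOn_const, fun y hy => ?_⟩
        have h4 : ¬ 0 < f y := not_lt.2 (le_of_lt hy.2)
        have h5 : y ∉ closure V := hy.1
        simp [t, h5, h4]
      · refine ⟨(closure V)ᶜ ∩ {y | 0 < f y}, inter_mem
          (isClosed_closure.isOpen_compl.mem_nhds h1) ((isOpen_lt continuous_const hc).mem_nhds h3),
          fun _ => 1, contMDiffOn_const, fun y hy => ?_⟩
        have h4 : 0 < f y := hy.2
        have h5 : y ∉ closure V := hy.1
        simp [t, h5, h4])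
  have hgV : ∀ x ∈ closure V, g x = f x := by
    intro x hx
    have h1 := hg x
    simpa [t, hx] using h1
  refine ⟨g, g.contMDiff, fun x hx => ?_, fun x hx => ?_, fun x hx => ?_⟩
  · by_cases h1 : x ∈ closure V
    · rw [hgV x h1]; exact hx
    · have h2 := hg x
      simpa [t, h1, hx] using h2
  · by_cases h1 : x ∈ closure V
    · rw [hgV x h1]; exact hx
    · have h2 := hg x
      have h3 : ¬ 0 < f x := not_lt.2 hx.le
      simpa [t, h1, h3] using h2
  · filter_upwards [hV.mem_nhds (hZV hx)] with y hy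
    exact hgV y (subset_closure hy)

end Pool.Agent.N550.SH
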