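import Pool.Agent.Y522.Sum
import Pool.Agent.Y641.SH.Level
import Pool.Agent.Y784.SH.Ext
import Pool.Agent.Y248.SH.Germ
import Pool.Agent.Y496.SH.Mono

/-!
# Project SH: engulfing in level sets
-/

set_option autoImplicit false

open Set Filter Topology Metric Function MeasureTheory
open scoped Manifold ContDiff

noncomputable section

namespace Pool.Agent.N550.SH

open Pool.Agent.Y522

/-- regular values are dense -/
theorem exists_regular (hSM : StSardM) {n : ℕ} {X : Type} [TopologicalSpace X]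
    [SecondCountableTopology X] [ChartedSpace (E n) X] [IsManifold (𝓡 n) ∞ X] (φ : X → ℝ)
    (hφ : ContMDiff (𝓡 n) 𝓘(ℝ, ℝ) ∞ φ) {a b : ℝ} (hab : a < b) :
    ∃ c : ℝ, a < c ∧ c < b ∧ ∀ x, φ x = c → mfderiv (𝓡 n) 𝓘(ℝ, ℝ) φ x ≠ 0 := by
  have h1 := hSM n X φ hφ
  have h2 : ¬ (Ioo a b ⊆ φ '' {x | mfderiv (𝓡 n) 𝓘(ℝ, ℝ) φ x = 0}) := by
    intro hsub
    have h3 := measure_mono_null hsub h1
    rw [Real.volume_Ioo, ENNReal.ofReal_eq_zero] at h3
    linarith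
  obtain ⟨c, hc, hc'⟩ := not_subset.1 h2
  exact ⟨c, hc.1, hc.2, fun x hx h0 => hc' ⟨x, h0, hx⟩⟩

/-- compact subsets of level sets which are homeomorphic to the Euclidean space by smooth maps
are engulfed -/
theorem level_engulf {m : ℕ} (hE : StEng m) {X : Type} [TopologicalSpace X]
    [ChartedSpace (E (m + 1)) X] [IsManifold (𝓡 (m + 1)) ∞ X] (φ : X → ℝ) (S : Set X) (O : Set X)
    (hO : IsOpen O) (hφ : ContMDiff (𝓡 (m + 1)) 𝓘(ℝ, ℝ) ∞ φ)
    (hSO : S ⊆ O) (hS : ∀ x ∈ O, (x ∈ S ↔ φ x = 0))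
    (hd : ∀ x ∈ S, mfderiv (𝓡 (m + 1)) 𝓘(ℝ, ℝ) φ x ≠ 0) (θ : X → E m)
    (hθ : ∀ x ∈ S, ContMDiffAt (𝓡 (m + 1)) (𝓡 m) ∞ θ x) (ψ : E m → X) (hψ : Continuous ψ)
    (hψS : ∀ y, ψ y ∈ S) (h1 : ∀ y, θ (ψ y) = y) (h2 : ∀ x ∈ S, ψ (θ x) = x)
    (K : Set X) (hK : IsCompact K) (hKS : K ⊆ S) :
    ∃ f : E m → X, Injective f ∧ ContMDiff (𝓡 m) (𝓡 (m + 1)) ∞ f ∧
      (∀ x, Injective (mfderiv (𝓡 m) (𝓡 (m + 1)) f x)) ∧ (∀ x, f x ∈ S) ∧ K ⊆ range f := by
  have hflat : LocFlat m S := by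
    intro x hx
    obtain ⟨e, he, -, he2⟩ := Pool.Agent.Y641.SH.stAdapt m X φ x
      (Eventually.of_forall fun y => hφ y) (hd x hx)
    refine ⟨e, he, ?_⟩
    filter_upwards [he2, hO.mem_nhds (hSO hx)] with y hy hyO
    rw [hS y hyO, hy, (hS x (hSO hx)).1 hx, sub_zero]
  obtain ⟨cs, hmf, hv1, hv2⟩ := Pool.Agent.Y641.SH.stLevel m X S hflat
  let H : S ≃ₜ E m :=
    { toFun := fun s => θ s
      invFun := fun y => ⟨ψ y, hψS y⟩
      left_inv := fun s => Subtype.ext (h2 s s.2)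
      right_inv := fun y => h1 y
      continuous_toFun := by
        rw [continuous_iff_continuousAt]
        intro s
        exact (hθ s s.2).continuousAt.comp continuous_subtype_val.continuousAt
      continuous_invFun := hψ.subtype_mk _ }
  have hH : ContMDiff (𝓡 m) (𝓡 m) ∞ H := by
    intro s
    exact ContMDiffAt.comp (g := θ) s (hθ s s.2) (hv1 s)
  have hK' : IsCompact ((Subtype.val : S → X) ⁻¹' K) := by
    rw [Topology.IsInducing.subtypeVal.isCompact_iff, Subtype.image_preimage_coe,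
      inter_eq_self_of_subset_right hKS]
    exact hK
  obtain ⟨g, hg1, hg2, hg3⟩ := hE S H hH _ hK'
  have hgs : ContMDiff (𝓡 m) (𝓡 m) ∞ g := fun x => (hg2 x).contMDiffAt
  refine ⟨fun x => (g x : X), Subtype.val_injective.comp hg1, hv1.comp hgs, ?_,
    fun x => (g x).2, ?_⟩
  · intro x
    have h3 : mfderiv (𝓡 m) (𝓡 (m + 1)) (fun x => (g x : X)) x =
        (mfderiv (𝓡 m) (𝓡 (m + 1)) (Subtype.val : S → X) (g x)).comp
          (mfderiv (𝓡 m) (𝓡 m) g x) :=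
      mfderiv_comp x (hv1.mdifferentiableAt (by simp)) (hgs.mdifferentiableAt (by simp))
    rw [h3]
    exact (hv2 (g x)).comp (hg2 x).mfderiv_injective
  · intro x hx
    obtain ⟨y, hy⟩ := hg3 (show (⟨x, hKS hx⟩ : S) ∈ (Subtype.val : S → X) ⁻¹' K from hx)
    exact ⟨y, congrArg Subtype.val hy⟩

/-- every point has an embeddable neighbourhood -/
theorem emb_nhds {n : ℕ} {X : Type} [TopologicalSpace X] [ChartedSpace (E n) X]
    [IsManifold (𝓡 n) ∞ X] (x : X) : ∃ U : Set X, IsOpen U ∧ x ∈ U ∧ Emb n U := by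
  have h := Pool.Agent.Y641.SH.LD_chart (n := n) x
  obtain ⟨u, hu, hinj⟩ := h.eventually_injOn
  obtain ⟨U, hU, hUo, hxU⟩ := mem_nhds_iff.1 (Filter.inter_mem hu h.eventually)
  exact ⟨U, hUo, hxU, U, chartAt (E n) x, hUo, Subset.rfl, hinj.mono fun y hy => (hU hy).1,
    fun y hy => (hU hy).2⟩

theorem emb_mono {n : ℕ} {X : Type} [TopologicalSpace X] [ChartedSpace (E n) X] {K K' : Set X}
    (h : Emb n K) (hK : K' ⊆ K) : Emb n K' := by
  obtain ⟨U, k, h1, h2, h3, h4⟩ := h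
  exact ⟨U, k, h1, hK.trans h2, h3, h4⟩

end Pool.Agent.N550.SH
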