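import Pool.Agent.N550.SH.Box

/-!
# Project SH: spheres minus a point
-/

set_option autoImplicit false

open Set Filter Topology Metric Function MeasureTheory
open scoped Manifold ContDiff

noncomputable section

namespace Pool.Agent.N550.SH

open Pool.Agent.Y522

variable {m : ℕ}

/-- stereographic projection from `cn r 0` -/
def stT (r : ℝ) (p : E (m + 1)) : E m := (r / (r - p 0)) • tl p

/-- its inverse -/
def stP (r : ℝ) (y : E m) : E (m + 1) :=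
  cn (r * (‖y‖ ^ 2 - r ^ 2) / (‖y‖ ^ 2 + r ^ 2)) ((2 * r ^ 2 / (‖y‖ ^ 2 + r ^ 2)) • y)

theorem den_pos {r : ℝ} (hr : 0 < r) (y : E m) : 0 < ‖y‖ ^ 2 + r ^ 2 := by positivity

theorem norm_stP {r : ℝ} (hr : 0 < r) (y : E m) : ‖stP r y‖ ^ 2 = r ^ 2 := by
  have h := den_pos hr y
  unfold stP
  rw [norm_cn_sq, norm_smul, Real.norm_eq_abs, mul_pow, sq_abs]
  field_simp
  ring

theorem stP_zero_lt {r : ℝ} (hr : 0 < r) (y : E m) : (stP r y) 0 < r := by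
  have h := den_pos hr y
  unfold stP
  rw [cn_zero, div_lt_iff₀ h]
  nlinarith [pow_pos hr 3]

theorem continuous_stP {r : ℝ} (hr : 0 < r) : Continuous (stP r : E m → E (m + 1)) := by
  have h1 : Continuous fun y : E m => r * (‖y‖ ^ 2 - r ^ 2) / (‖y‖ ^ 2 + r ^ 2) := by
    refine Continuous.div (by fun_prop) (by fun_prop) fun y => (den_pos hr y).ne'
  have h2 : Continuous fun y : E m => (2 * r ^ 2 / (‖y‖ ^ 2 + r ^ 2)) • y := by
    refine Continuous.smul (Continuous.div (by fun_prop) (by fun_prop)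
      fun y => (den_pos hr y).ne') continuous_id
  exact continuous_cn.comp (h1.prodMk h2)

theorem stT_stP {r : ℝ} (hr : 0 < r) (y : E m) : stT r (stP r y) = y := by
  have h := den_pos hr y
  unfold stT stP
  rw [cn_zero, tl_cn, smul_smul]
  have h1 : r / (r - r * (‖y‖ ^ 2 - r ^ 2) / (‖y‖ ^ 2 + r ^ 2)) * (2 * r ^ 2 / (‖y‖ ^ 2 + r ^ 2)) =
      1 := by
    have h2 : r - r * (‖y‖ ^ 2 - r ^ 2) / (‖y‖ ^ 2 + r ^ 2) = 2 * r ^ 3 / (‖y‖ ^ 2 + r ^ 2) := by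
      field_simp
      ring
    rw [h2]
    field_simp
  rw [h1, one_smul]

theorem stP_stT {r : ℝ} (hr : 0 < r) {p : E (m + 1)} (hp : ‖p‖ ^ 2 = r ^ 2) (hp0 : p 0 ≠ r) :
    stP r (stT r p) = p := by
  have h0 := norm_sq_split p
  have h1 : r - p 0 ≠ 0 := fun h => hp0 (by linarith)
  have h2 : ‖tl p‖ ^ 2 = (r - p 0) * (r + p 0) := by nlinarith
  have h3 : ‖stT r p‖ ^ 2 = r ^ 2 * (r + p 0) / (r - p 0) := by
    unfold stT
    rw [norm_smul, Real.norm_eq_abs, mul_pow, sq_abs, h2]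
    field_simp
  have h4 : ‖stT r p‖ ^ 2 + r ^ 2 = 2 * r ^ 3 / (r - p 0) := by
    rw [h3]
    field_simp
    ring
  have h5 : ‖stT r p‖ ^ 2 - r ^ 2 = 2 * r ^ 2 * p 0 / (r - p 0) := by
    rw [h3]
    field_simp
    ring
  have h6 : r * (‖stT r p‖ ^ 2 - r ^ 2) / (‖stT r p‖ ^ 2 + r ^ 2) = p 0 := by
    rw [h4, h5]
    field_simp
  have h7 : 2 * r ^ 2 / (‖stT r p‖ ^ 2 + r ^ 2) = (r - p 0) / r := by
    rw [h4]
    field_simp
  unfold stP
  rw [h6, h7]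
  unfold stT
  rw [smul_smul]
  have h8 : (r - p 0) / r * (r / (r - p 0)) = 1 := by field_simp
  rw [h8, one_smul, cn_tl]

/-- engulfing in a sphere minus a point -/
theorem sphere_engulf (hE : StEng m) {X : Type} [TopologicalSpace X]
    [ChartedSpace (E (m + 1)) X] [IsManifold (𝓡 (m + 1)) ∞ X] (H : X ≃ₜ E (m + 1))
    (hH : ContMDiff (𝓡 (m + 1)) (𝓡 (m + 1)) ∞ H) (r : ℝ) (hr : 0 < r) (s₀ : X)
    (hs₀ : H s₀ = cn r 0)
    (hφ : ContMDiff (𝓡 (m + 1)) 𝓘(ℝ, ℝ) ∞ fun x => ‖H x‖ ^ 2 - r ^ 2)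
    (hd : ∀ x, ‖H x‖ ^ 2 - r ^ 2 = 0 →
      mfderiv (𝓡 (m + 1)) 𝓘(ℝ, ℝ) (fun x => ‖H x‖ ^ 2 - r ^ 2) x ≠ 0)
    (K : Set X) (hK : IsCompact K) (hKS : ∀ x ∈ K, ‖H x‖ ^ 2 - r ^ 2 = 0 ∧ x ≠ s₀) :
    ∃ f : E m → X, Injective f ∧ ContMDiff (𝓡 m) (𝓡 (m + 1)) ∞ f ∧
      (∀ x, Injective (mfderiv (𝓡 m) (𝓡 (m + 1)) f x)) ∧
      (∀ x, ‖H (f x)‖ ^ 2 - r ^ 2 = 0 ∧ f x ≠ s₀) ∧ K ⊆ range f := by
  have : T2Space X := H.symm.t2Space
  have key : ∀ x, ‖H x‖ ^ 2 - r ^ 2 = 0 → x ≠ s₀ → H x 0 ≠ r := by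
    intro x h1 h2 h3
    apply h2
    apply H.injective
    rw [hs₀]
    have h4 := norm_sq_split (H x)
    have h5 : ‖tl (H x)‖ ^ 2 = 0 := by rw [h3] at h4; linarith
    have h6 : tl (H x) = 0 := by
      rw [← norm_eq_zero]
      exact pow_eq_zero_iff (two_ne_zero) |>.1 h5
    rw [← cn_tl (H x), h6, h3]
  refine level_engulf hE (fun x => ‖H x‖ ^ 2 - r ^ 2) {x | ‖H x‖ ^ 2 - r ^ 2 = 0 ∧ x ≠ s₀} {s₀}ᶜ
    isOpen_compl_singleton hφ (fun x hx => hx.2) (fun x hx => ?_)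
    (fun x hx => hd x hx.1) (fun x => stT r (H x)) (fun x hx => ?_)
    (fun y => H.symm (stP r y)) (H.symm.continuous.comp (continuous_stP hr))
    (fun y => ?_) (fun y => ?_) (fun x hx => ?_) K hK (fun x hx => hKS x hx)
  · exact ⟨fun h => h.1, fun h => ⟨h, hx⟩⟩
  · have h1 : r - H x 0 ≠ 0 := fun h => key x hx.1 hx.2 (by linarith)
    have h2 : ContDiffAt ℝ ∞ (stT r : E (m + 1) → E m) (H x) := by
      unfold stT
      refine ContDiffAt.smul (f := fun p : E (m + 1) => r / (r - p 0))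
        (g := fun p : E (m + 1) => (tl p : E m)) ?_ (tl (m := m)).contDiff.contDiffAt
      refine ContDiffAt.div contDiffAt_const ?_ h1
      fun_prop
    exact ContMDiffAt.comp (g := (stT r : E (m + 1) → E m)) x h2.contMDiffAt (hH x)
  · refine ⟨by rw [H.apply_symm_apply, norm_stP hr, sub_self], fun h => ?_⟩
    have h1 : stP r y = cn r 0 := by rw [← hs₀, ← h, H.apply_symm_apply]
    have h2 := stP_zero_lt hr y
    rw [h1, cn_zero] at h2
    exact lt_irrefl _ h2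
  · simp only [Homeomorph.apply_symm_apply]
    exact stT_stP hr y
  · rw [stP_stT hr (by linarith [hx.1]) (key x hx.1 hx.2), H.symm_apply_apply]

end Pool.Agent.N550.SH
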